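import Pool.Agent.Helper33.TY.SPair
import Pool.Agent.Helper33.CV.Perm

/-!
MP_8ee768_co, project TH-Y', stage S: kernel check of the root positions.

`posChk r pos cert` checks that every position `y < 12` of the representative `r` has a pair link
of size different from 19 or a certified relabelling to one of the codes in `pos`.
-/

set_option autoImplicit false

namespace Pool.Agent.Helper33.TY

open Finset
open Pool.Agent.Helper89.CV (OddCover ofMask)
open Pool.Agent.Helper97.CV Pool.Agent.Helper79.CV Pool.Agent.Helper33.CV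

/-- the list `l` moves the family `fam 12 4 r` to `fam 12 4 r'` and `y` to `11`, the link of `11`
is `fam 11 3 T` -/
def relChk (r y : ℕ) (l : List ℕ) (r' T : ℕ) : Bool :=
  okPerm l && Nat.beq (l.getD 12 0) 12 && Nat.beq (l.getD y 0) 11 &&
    (l.take 12).all (fun a => Nat.blt a 12) && Nat.beq (relab 12 4 l r) r' &&
    Nat.beq (Nat.shiftRight r' 330) T

theorem link_fam_last (n : Fin 13) (k N : ℕ) (hN : N < 2 ^ (n.val + 1).choose (k + 1)) :
    link (fam (n.val + 1) (k + 1) N) n = fam n.val k (N >>> n.val.choose (k + 1)) := by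
  have hn : n.val + 1 ≤ 13 := n.isLt
  have h1 := enc_shift n k (fam (n.val + 1) (k + 1) N)
  rw [enc_fam hn hN] at h1
  rw [h1, fam_enc (by omega)]
  intro s hs
  rw [mem_link] at hs
  have h2 := sub_of_mem_fam hn hs.2
  refine ⟨?_, ?_⟩
  · rw [mk_lt_iff]
    intro a ha
    have h3 := mk_lt_iff.1 h2.1 a (mem_insert_of_mem ha)
    have h4 : a ≠ n := fun h => hs.1 (h ▸ ha)
    have h5 : a.val ≠ n.val := fun h => h4 (Fin.ext h)
    omega
  · have h3 := h2.2
    rw [card_insert_of_notMem hs.1] at h3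
    omega

theorem relChk_spec {r y : ℕ} (hy : y < 12) {l : List ℕ} {r' T : ℕ}
    (h : relChk r y l r' T = true) :
    ∃ σ : Equiv.Perm (Fin 13), σ 12 = 12 ∧ σ ⟨y, by omega⟩ = 11 ∧
      mapF σ (fam 12 4 r) = fam 12 4 r' ∧ link (fam 12 4 r') 11 = fam 11 3 T := by
  unfold relChk at h
  rw [Bool.and_eq_true, Bool.and_eq_true, Bool.and_eq_true, Bool.and_eq_true, Bool.and_eq_true,
    Nat.beq_eq, Nat.beq_eq, Nat.beq_eq, Nat.beq_eq] at h
  obtain ⟨⟨⟨⟨⟨h1, h2⟩, h3⟩, h4⟩, h5⟩, h6⟩ := h
  have hk : Keeps 12 (permOf l h1) := keeps_permOf h1 h4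
  have hap : ∀ i : Fin 13, (permOf l h1 i).val = l.getD i.val 0 := by
    intro i
    have h7 := permOf_apply h1 i
    rw [List.getD_eq_getElem?_getD, h7]
    rfl
  have h8 := fam_relab (n := 12) (k := 4) (by norm_num) hk r
  rw [valL_permOf, h5] at h8
  refine ⟨permOf l h1, ?_, ?_, h8.symm, ?_⟩
  · apply Fin.ext
    rw [hap]
    exact h2
  · apply Fin.ext
    rw [hap]
    exact h3
  · have hlt : r' < 2 ^ (11 + 1).choose (3 + 1) := by
      rw [← h5]
      have h9 := enc_mapF_relab (n := 12) (k := 4) (by norm_num) hk (D := fam 12 4 r)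
        (fun s hs => sub_of_mem_fam (by norm_num) hs)
      have h10 := relab_eq (n := 12) (k := 4) (by norm_num) hk r
      rw [valL_permOf] at h10
      rw [h10]
      exact enc_lt 12 4 _
    have h11 := link_fam_last 11 3 r' hlt
    have h12 : Nat.shiftRight r' 330 = r' >>> (11 : Fin 13).val.choose (3 + 1) := rfl
    rw [← h6, h12]
    exact h11

/-- number of blocks through `y` of the family `fam 12 4 r` -/
def degN (r y : ℕ) : ℕ :=
  Pool.Agent.Helper82.TY.pop (Nat.land (r % 2 ^ 495) (Pool.Agent.Helper82.TY.supM 12 4 (2 ^ y)))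

theorem card_link_fam {r : ℕ} (hr : r < 2 ^ 495) (y : Fin 13) :
    (link (fam 12 4 r) y).card = degN r y.val := by
  unfold degN
  rw [Nat.mod_eq_of_lt hr, card_link]
  have h1 : ({y} : Finset (Fin 13)) = ofMask (2 ^ y.val) := by
    ext i
    rw [mem_singleton, mem_ofMask, Nat.testBit_two_pow, decide_eq_true_eq, Fin.ext_iff]
    exact eq_comm
  have hN : r < 2 ^ (12 : ℕ).choose 4 := hr
  rw [h1, Pool.Agent.Helper82.TY.cnt_eq_pop (n := 12) (k := 4) (by norm_num)
    (Nat.pow_lt_pow_right (by norm_num) y.isLt) (fun s hs => sub_of_mem_fam (by norm_num) hs),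
    enc_fam (by norm_num) hN]

/-- the certificate: for every `y < 12` the list of images, empty if the pair link has not
size 19, and the target -/
def posGo (r : ℕ) (pos : List (ℕ × ℕ)) : ℕ → List (List ℕ × ℕ × ℕ) → Bool
  | _, [] => true
  | y, c :: cs =>
    (bif Nat.beq (degN r y) 19 then
      relChk r y c.1 c.2.1 c.2.2 &&
        pos.any (fun p => Nat.beq p.1 c.2.1 && Nat.beq p.2 c.2.2)
    else true) && posGo r pos (y + 1) cs

def posChk (r : ℕ) (pos : List (ℕ × ℕ)) (cert : List (List ℕ × ℕ × ℕ)) : Bool :=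
  Nat.blt r (2 ^ 495) && Nat.beq cert.length 12 && posGo r pos 0 cert

theorem posGo_spec {r : ℕ} {pos : List (ℕ × ℕ)} {y : ℕ} {cs : List (List ℕ × ℕ × ℕ)}
    (h : posGo r pos y cs = true) {i : ℕ} (hi : i < cs.length) (h12 : y + i < 12)
    (hd : degN r (y + i) = 19) :
    ∃ σ : Equiv.Perm (Fin 13), σ 12 = 12 ∧ σ ⟨y + i, by omega⟩ = 11 ∧ ∃ rT ∈ pos,
      mapF σ (fam 12 4 r) = fam 12 4 rT.1 ∧ link (fam 12 4 rT.1) 11 = fam 11 3 rT.2 := by
  induction cs generalizing y i with
  | nil => exact absurd hi (Nat.not_lt_zero i)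
  | cons c cs ih =>
    unfold posGo at h
    rw [Bool.and_eq_true] at h
    cases i with
    | zero =>
      have h1 := h.1
      rw [show Nat.beq (degN r y) 19 = true from Nat.beq_eq ▸ hd, cond_true, Bool.and_eq_true,
        List.any_eq_true] at h1
      obtain ⟨h2, p, hp, h3⟩ := h1
      rw [Bool.and_eq_true, Nat.beq_eq, Nat.beq_eq] at h3
      obtain ⟨σ, h4, h5, h6, h7⟩ := relChk_spec (by omega) h2
      refine ⟨σ, h4, h5, p, hp, ?_, ?_⟩
      · rw [h3.1]
        exact h6
      · rw [h3.1, h3.2]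
        exact h7
    | succ i =>
      have h1 := ih h.2 (i := i) (by simpa using hi) (by omega)
        (by rw [← hd]; congr 1; omega)
      obtain ⟨σ, h4, h5, h6⟩ := h1
      refine ⟨σ, h4, ?_, h6⟩
      rw [← h5]
      congr 1
      apply Fin.ext
      simp only
      omega

theorem posChk_spec {r : ℕ} {pos : List (ℕ × ℕ)} {cert : List (List ℕ × ℕ × ℕ)}
    (h : posChk r pos cert = true) : PosOK r pos := by
  unfold posChk at h
  rw [Bool.and_eq_true, Bool.and_eq_true, Nat.blt_eq, Nat.beq_eq] at h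
  obtain ⟨⟨h1, h2⟩, h3⟩ := h
  intro y hy hc
  have hy12 : y.val < 12 := by
    have h4 : y.val ≠ 12 := fun h5 => hy (Fin.ext h5)
    omega
  rw [card_link_fam h1] at hc
  obtain ⟨σ, h4, h5, h6⟩ := posGo_spec h3 (i := y.val) (by omega) (by omega)
    (by rw [Nat.zero_add]; exact hc)
  refine ⟨σ, h4, ?_, h6⟩
  rw [← h5]
  congr 1
  apply Fin.ext
  simp only
  omega

end Pool.Agent.Helper33.TY
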