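import Pool.Agent.Helper33.TY.Root
import Pool.Agent.Helper58.TB.Part

/-!
MP_8ee768_co, project TH-Y', stage 0: from the claim of the root part to the bound of the sub-run.
-/

set_option autoImplicit false

namespace Pool.Agent.Helper33.TY.Root

open Pool.Agent.Helper69.TY (CountLe)
open Pool.Agent.Helper57.TZ (St)
open Pool.Agent.Helper58.TB (CountSub)
open Pool.Agent.Helper58.TI

variable {T Z F cap zm N K : ℕ}

/-- **the claim of the root word gives the bound of the sub-run** -/
theorem root_ok (hc : Cl T Z F cap N K) (h : rootB T Z F cap zm N = true) : CountSub T Z F cap K :=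
  rootB_Sub h hc

/-- the same for the start state -/
theorem root_ok_St (hc : Cl T Z F cap N K) (h : rootB T Z F cap zm N = true) :
    CountLe (St T Z F cap 0 fun q => q < 330) K := rootB_St h hc

end Pool.Agent.Helper33.TY.Root
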