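import Pool.Agent.Helper33.TY.PBridge
import Pool.Agent.Helper4.CV.Stages

/-!
MP_8ee768_co, project TH-Y', stage S: flags of the pair word.

`setZ z Q` sets the flag `8 <= MM z`; `setNb Q` sets the flags of all points with positive excess
to the pair (valid if the light points are independent).
-/

set_option autoImplicit false
set_option exponentiation.threshold 20000

namespace Pool.Agent.Helper33.TY

open Finset
open Pool.Agent.Helper89.CV (OddCover ofMask)
open Pool.Agent.Helper97.CV Pool.Agent.Helper79.CV Pool.Agent.Helper33.CV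
open Pool.Agent.Helper63.SIMD
open Pool.Agent.Helper25.TY (R11 mem_R11)
open Pool.Agent.Helper4.CV (Ind TwoS)

/-- one field -/
theorem bw_single {z : Fin 13} (hz : z.val < 11) (c : ℕ) :
    bw (fun s => if s = {z} then c else 0) = c * 2 ^ (8 * 2 ^ z.val) := by
  have h1 : 2 ^ z.val < 2048 := by
    have e1 := Nat.pow_le_pow_right (show 0 < 2 by norm_num) (show z.val ≤ 10 by omega)
    omega
  have h2 : bw (fun s => if s = {z} then c else 0) =
      pk 8 2048 (fun m => if m = 2 ^ z.val then c else 0) := by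
    refine pk_congr fun m hm => ?_
    show (if ofMask m = {z} then c else 0) = if m = 2 ^ z.val then c else 0
    by_cases h3 : m = 2 ^ z.val
    · rw [if_pos h3, h3, ofMask_two_pow, if_pos rfl]
    · rw [if_neg h3, if_neg]
      intro h4
      rw [← ofMask_two_pow] at h4
      exact h3 (ofMask_injOn (by omega) (by omega) h4)
  rw [h2]
  unfold pk
  rw [sum_eq_single_of_mem (2 ^ z.val) (mem_range.2 h1)]
  · show (if (2 : ℕ) ^ z.val = 2 ^ z.val then c else 0) * _ = _
    rw [if_pos rfl]
  · intro m _ hm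
    show (if m = 2 ^ z.val then c else 0) * _ = _
    rw [if_neg hm, Nat.zero_mul]

theorem lor_64 {x y : ℕ} (hx : x < 64) (hy : y ≤ 1) : (x + 64 * y) ||| 64 = x + 64 := by
  have h := lor_cons (W := 6) (x := y) (y := 1) (p := x) (q := 0) hx (by norm_num)
  have e1 : 2 ^ 6 * y + x = x + 64 * y := by omega
  have e2 : 2 ^ 6 * 1 + 0 = 64 := by norm_num
  rw [e1, e2, Nat.or_zero] at h
  rw [h]
  have h2 : y ||| 1 = 1 := by
    rcases (by omega : y = 0 ∨ y = 1) with rfl | rfl <;> rfl
  rw [h2]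
  omega

/-- raising flags of size one -/
theorem qf_lor {B : Finset (Finset (Fin 13))} (hB : OddCover B) (h157 : B.card ≤ 157)
    {f : Finset (Fin 13) → ℕ} (hf : ∀ s, f s ≤ 1) (p : Finset (Fin 13) → Prop)
    [DecidablePred p] (hp : ∀ s, p s → s.card = 1) :
    bw (qf B f) ||| bw (fun s => if p s then 64 else 0) =
      bw (qf B fun s => if p s then 1 else f s) := by
  unfold bw
  rw [pk_lor (fun _ hm => qf_lt256 hB h157 hf (ofMask_subset_R11 hm))
    (fun m _ => by
      show (if p (ofMask m) then 64 else 0) < 2 ^ 8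
      split_ifs <;> norm_num)]
  refine pk_congr fun m hm => ?_
  have hs := ofMask_subset_R11 hm
  show qf B f (ofMask m) ||| (if p (ofMask m) then 64 else 0) = qf B _ (ofMask m)
  generalize ofMask m = s at hs ⊢
  by_cases h1 : p s
  · have hc := hp s h1
    rw [if_pos h1]
    unfold qf
    rw [if_neg (by omega), if_neg (by omega), if_neg (by omega), if_pos hc, if_neg (by omega),
      if_neg (by omega), if_neg (by omega), if_pos hc]
    show (∑ u ∈ s, (mm B 12 u + mm B 11 u) + 64 * f s) ||| 64 =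
      ∑ u ∈ s, (mm B 12 u + mm B 11 u) + 64 * (if p s then 1 else f s)
    rw [if_pos h1]
    obtain ⟨u, rfl⟩ := card_eq_one.1 hc
    rw [sum_singleton]
    have := hrow_le hB h157 (mem_R11.1 (singleton_subset_iff.1 hs))
    rw [lor_64 (by omega) (hf {u})]
  · rw [if_neg h1, Nat.or_zero]
    have e : (fun s => if p s then 1 else f s) s = f s := if_neg h1
    unfold qf
    rw [e]

/-- flag of one point -/
def setZ (z Q : ℕ) : ℕ := Nat.lor Q (Nat.shiftLeft 64 (Nat.shiftLeft 8 z))

theorem setZ_pw {B : Finset (Finset (Fin 13))} (hB : OddCover B) (h157 : B.card ≤ 157)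
    {Q : ℕ} (hQ : PW B Q) {z : Fin 13} (hz : z.val < 11) (h8 : 8 ≤ MM B z) :
    PW B (setZ z.val Q) := by
  unfold PW at hQ ⊢
  obtain ⟨f, hQf, hf, hf8⟩ := hQ
  refine ⟨fun s => if s = {z} then 1 else f s, ?_, ?_, ?_⟩
  · rw [← qf_lor hB h157 hf (fun s => s = {z}) (fun s hs => by rw [hs, card_singleton]),
      bw_single hz, hQf]
    unfold setZ
    have e1 : Nat.shiftLeft 8 z.val = 8 * 2 ^ z.val := Nat.shiftLeft_eq 8 z.val
    have e2 : Nat.shiftLeft 64 (8 * 2 ^ z.val) = 64 * 2 ^ (8 * 2 ^ z.val) :=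
      Nat.shiftLeft_eq 64 _
    rw [e1, e2]
    rfl
  · intro s
    show (if s = {z} then 1 else f s) ≤ 1
    split_ifs
    · exact le_refl _
    · exact hf s
  · intro u hu h1
    by_cases h2 : u = z
    · rw [h2]
      exact h8
    · refine hf8 u hu ?_
      have h3 : (if ({u} : Finset (Fin 13)) = {z} then 1 else f {u}) = 1 := h1
      rwa [if_neg (fun h => h2 (singleton_injective h))] at h3

/-- flags of the points with positive excess to the pair -/
def setNb (Q : ℕ) : ℕ :=
  Nat.lor Q (Nat.land (Nat.add (Nat.land Q m63_1) m63_1) m64_1)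

theorem word_nb {B : Finset (Finset (Fin 13))} (hB : OddCover B) (h157 : B.card ≤ 157)
    {f : Finset (Fin 13) → ℕ} (hf : ∀ s, f s ≤ 1) :
    ((bw (qf B f) &&& m63_1) + m63_1) &&& m64_1 =
      bw fun s => if (s.card = 1 ∧ 1 ≤ ∑ u ∈ s, (mm B 12 u + mm B 11 u)) then 64 else 0 := by
  rw [m63_1_eq, m64_1_eq, bw_land_lay' (fun s hs => qf_lt256 hB h157 hf hs) (by norm_num)]
  have hA : ∀ s ⊆ R11, s.card = 1 → ∑ u ∈ s, (mm B 12 u + mm B 11 u) ≤ 30 := by
    intro s hs h1
    obtain ⟨u, rfl⟩ := card_eq_one.1 h1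
    rw [sum_singleton]
    exact hrow_le hB h157 (mem_R11.1 (singleton_subset_iff.1 hs))
  have h1 : (bw fun s => if s.card = 1 then qf B f s &&& 63 else 0) + lay 63 1 =
      bw fun s => if s.card = 1 then ∑ u ∈ s, (mm B 12 u + mm B 11 u) + 63 else 0 := by
    unfold lay
    rw [bw_add]
    refine bw_congr fun s hs => ?_
    by_cases hc : s.card = 1
    · rw [if_pos hc, if_pos hc, if_pos hc]
      unfold qf
      rw [if_neg (by omega), if_neg (by omega), if_neg (by omega), if_pos hc]
      have := hA s hs hc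
      rw [(land_63 (by omega) (hf s)).1]
    · rw [if_neg hc, if_neg hc, if_neg hc]
  rw [h1, bw_land_lay' (fun s hs => ?_) (by norm_num)]
  · refine bw_congr fun s hs => ?_
    by_cases hc : s.card = 1
    · rw [if_pos hc, if_pos hc]
      have h30 := hA s hs hc
      by_cases h2 : 1 ≤ ∑ u ∈ s, (mm B 12 u + mm B 11 u)
      · rw [if_pos ⟨hc, h2⟩]
        have h3 := (land_63 (x := ∑ u ∈ s, (mm B 12 u + mm B 11 u) - 1) (y := 1) (by omega)
          (le_refl 1)).2
        have h4 : ∑ u ∈ s, (mm B 12 u + mm B 11 u) - 1 + 64 * 1 =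
            ∑ u ∈ s, (mm B 12 u + mm B 11 u) + 63 := by omega
        rwa [h4] at h3
      · rw [if_neg (fun h => h2 h.2)]
        have h3 : ∑ u ∈ s, (mm B 12 u + mm B 11 u) = 0 := by omega
        rw [h3]
        rfl
    · rw [if_neg hc, if_neg (fun h => hc h.1)]
  · split_ifs with hc
    · have := hA s hs hc
      omega
    · norm_num

/-- general form: the flagged points are heavy -/
theorem setNb_pw' {B : Finset (Finset (Fin 13))} (hB : OddCover B) (h157 : B.card ≤ 157)
    {Q : ℕ} (hQ : PW B Q)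
    (h : ∀ u : Fin 13, u.val < 11 → 1 ≤ mm B 12 u + mm B 11 u → 8 ≤ MM B u) :
    PW B (setNb Q) := by
  unfold PW at hQ ⊢
  obtain ⟨f, hQf, hf, hf8⟩ := hQ
  refine ⟨fun s => if (s.card = 1 ∧ 1 ≤ ∑ u ∈ s, (mm B 12 u + mm B 11 u)) then 1 else f s,
    ?_, ?_, ?_⟩
  · rw [← qf_lor hB h157 hf (fun s => s.card = 1 ∧ 1 ≤ ∑ u ∈ s, (mm B 12 u + mm B 11 u))
      (fun s hs => hs.1), ← word_nb hB h157 hf, hQf]
    rfl
  · intro s
    show (if (s.card = 1 ∧ 1 ≤ ∑ u ∈ s, (mm B 12 u + mm B 11 u)) then 1 else f s) ≤ 1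
    split_ifs
    · exact le_refl _
    · exact hf s
  · intro u hu h1
    by_cases h2 : 1 ≤ mm B 12 u + mm B 11 u
    · exact h u hu h2
    · refine hf8 u hu ?_
      have h3 : (if (({u} : Finset (Fin 13)).card = 1 ∧
          1 ≤ ∑ v ∈ ({u} : Finset (Fin 13)), (mm B 12 v + mm B 11 v)) then 1 else f {u}) = 1 := h1
      rw [sum_singleton] at h3
      rwa [if_neg (fun h => h2 h.2)] at h3

theorem setNb_pw {B : Finset (Finset (Fin 13))} {a b : ℕ} (h : TwoS B 12 11 a b)
    (ha : a ≤ 6) (hb : b ≤ 6) {Q : ℕ} (hQ : PW B Q) : PW B (setNb Q) := by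
  have hB := h.best.odd
  refine setNb_pw' hB ?_ hQ fun u hu h1 => ?_
  · have h2 := ten_card hB
    have h3 := h.sum
    omega
  · have n12 : (12 : Fin 13) ≠ u := by
      rintro rfl
      exact absurd hu (by decide)
    have n11 : (11 : Fin 13) ≠ u := by
      rintro rfl
      exact absurd hu (by decide)
    have h6 := h.other u n12.symm n11.symm
    obtain ⟨k, hk⟩ := MM_even hB u
    have h7 : MM B u ≠ 6 := by
      intro h8
      have e1 := h.ind 12 u n12 (h.hx.le.trans ha) h8.le
      have e2 := h.ind 11 u n11 (h.hy.le.trans hb) h8.le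
      omega
    omega

end Pool.Agent.Helper33.TY
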