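import Pool.Agent.Helper33.TY.SGen
import Pool.Agent.Helper67.GT.Rows
import Pool.Agent.Helper59.GC.Top

/-!
MP_8ee768_co, project TH-Y', stage S: the units with the tables.
-/

set_option autoImplicit false

namespace Pool.Agent.Helper33.TY

open Pool.Agent.Helper67.GT (NT gG gP gN gPiece)
open Pool.Agent.Helper59.GC (gC)

/-- a unit for the first pair link -/
noncomputable def unitA (b : ℕ) (rs : List (ℕ × ℕ × ℕ)) (es cs : List ℕ) : Bool :=
  unitG NT gC gPiece gP gN b t8A dtA rs es cs

/-- a unit for the second pair link -/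
noncomputable def unitB (b : ℕ) (rs : List (ℕ × ℕ × ℕ)) (es cs : List ℕ) : Bool :=
  unitG NT gC gPiece gP gN b t8B dtB rs es cs

end Pool.Agent.Helper33.TY
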