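import Pool.Agent.Helper4.CV.Stages
import Pool.Agent.Helper79.CV.Star

/-!
MP_8ee768_co, project TH-Y', stage S: the pair driver.

A pair statement `Q B x y` is moved to `x = 12`, `y = 11`, where the link of `12` is one of a few
root codes `r'` (representative and position) and the lane of `11` is a member of the table of
the pair link. What is left is `PDead Q r' u` for every root code and every member of the table.
-/

set_option autoImplicit false

namespace Pool.Agent.Helper33.TY

open Finset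
open Pool.Agent.Helper89.CV (OddCover ofMask)
open Pool.Agent.Helper97.CV Pool.Agent.Helper79.CV
open Pool.Agent.Helper82.TY (below Best)
open Pool.Agent.Helper4.CV

/-- relabelling invariant statements about a cover and two points -/
def Inv₂ (Q : Finset (Finset (Fin 13)) → Fin 13 → Fin 13 → Prop) : Prop :=
  ∀ (σ : Equiv.Perm (Fin 13)) (B : Finset (Finset (Fin 13))) (x y : Fin 13),
    Q B x y → Q (mapF σ B) (σ x) (σ y)

/-- no cover with `Q`, root link `fam 12 4 r` and lane `u` at `11` -/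
def PDead (Q : Finset (Finset (Fin 13)) → Fin 13 → Fin 13 → Prop) (r : ℕ)
    (u : Finset (Finset (Fin 13))) : Prop :=
  ∀ B : Finset (Finset (Fin 13)), Q B 12 11 → link B 12 = fam 12 4 r → lane B 11 = u → False

/-- the positions with pair link of size 19 of the representative `r` are covered by the list
`pos` of root codes and pair links -/
def PosOK (r : ℕ) (pos : List (ℕ × ℕ)) : Prop :=
  ∀ y : Fin 13, y ≠ 12 → (link (fam 12 4 r) y).card = 19 →
    ∃ σ : Equiv.Perm (Fin 13), σ 12 = 12 ∧ σ y = 11 ∧ ∃ rT ∈ pos,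
      mapF σ (fam 12 4 r) = fam 12 4 rT.1 ∧ link (fam 12 4 rT.1) 11 = fam 11 3 rT.2

/-- THE PAIR DRIVER -/
theorem pair_driver {capx capy : ℕ} {Px Py : Finset (Finset (Fin 13)) → Prop} (hPx : Inv Px)
    (hPy : Inv Py) {reps : List ℕ} (hR : RootOK capx Px reps)
    {Q : Finset (Finset (Fin 13)) → Fin 13 → Fin 13 → Prop} (hQ : Inv₂ Q)
    (hQB : ∀ B x y, Q B x y → OddCover B ∧ x ≠ y ∧ mm B x y = 0 ∧ MM B x ≤ capx ∧
      MM B y ≤ capy ∧ Px (link B x) ∧ Py (link B y))
    {pos : List (ℕ × ℕ)} (hpos : ∀ r ∈ reps, PosOK r pos)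
    {S : ℕ → Set (Finset (Finset (Fin 13)))}
    (hT : ∀ rT ∈ pos, TableOK rT.2 capy Py (S rT.2))
    (hkill : ∀ rT ∈ pos, ∀ E ∈ S rT.2, PDead Q rT.1 (cone 11 E))
    {B : Finset (Finset (Fin 13))} {x y : Fin 13} (h : Q B x y) : False := by
  obtain ⟨hB, hxy, hm, hMx, -, hPBx, -⟩ := hQB B x y h
  obtain ⟨σ, hσ, r, hr, hlink⟩ := root_wlog hB hPx hR hMx hPBx
  have hB1 := oddCover_mapF hB σ
  have hy : σ y ≠ 12 := by
    rw [← hσ]
    exact σ.injective.ne hxy.symm
  have hm1 : mm (mapF σ B) 12 (σ y) = 0 := by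
    rw [← hσ, mm_mapF hB σ hxy, hm]
  have hc : (link (fam 12 4 r) (σ y)).card = 19 := by
    rw [← hlink, card_link_link hB1 hy.symm, hm1]
  obtain ⟨τ, h12, hτ, rT, hrT, h1, h2⟩ := hpos r hr (σ y) hy hc
  have hB2 := oddCover_mapF hB1 τ
  have hQ2 := hQ τ _ _ _ (hQ σ B x y h)
  rw [hσ, h12, hτ] at hQ2
  obtain ⟨-, -, -, -, hMy2, -, hPy2⟩ := hQB _ _ _ hQ2
  have hlink2 : link (mapF τ (mapF σ B)) 12 = fam 12 4 rT.1 := by
    rw [← h1, ← hlink]
    conv_lhs => rw [← h12]
    exact link_mapF τ _ _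
  have h3 : mapF 1 (link (link (mapF τ (mapF σ B)) 12) 11) = fam 11 3 rT.2 := by
    rw [mapF_one, hlink2, h2]
  obtain ⟨E, hE, h4⟩ := linkage hB2 hPy (hT rT hrT) (σ := 1) rfl rfl h3 hMy2 hPy2
  refine hkill rT hrT E hE _ hQ2 hlink2 ?_
  have h5 : (1 : Equiv.Perm (Fin 13)).symm = 1 := rfl
  rw [h5, mapF_one] at h4
  exact h4

/-! ## stage S -/

theorem ind_map {B : Finset (Finset (Fin 13))} (hB : OddCover B) (h : Ind B)
    (σ : Equiv.Perm (Fin 13)) : Ind (mapF σ B) := by
  intro x y hxy hx hy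
  have h1 : MM B (σ.symm x) ≤ 6 := by
    have := MM_mapF hB σ (σ.symm x)
    rw [Equiv.apply_symm_apply] at this
    omega
  have h2 : MM B (σ.symm y) ≤ 6 := by
    have := MM_mapF hB σ (σ.symm y)
    rw [Equiv.apply_symm_apply] at this
    omega
  have h3 : σ.symm x ≠ σ.symm y := σ.symm.injective.ne hxy
  have h4 := mm_mapF hB σ h3
  rw [Equiv.apply_symm_apply, Equiv.apply_symm_apply, h _ _ h3 h1 h2] at h4
  exact h4

theorem MM_mapF' {B : Finset (Finset (Fin 13))} (hB : OddCover B) (σ : Equiv.Perm (Fin 13))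
    (x : Fin 13) : MM (mapF σ B) x = MM B (σ.symm x) := by
  rw [← MM_mapF hB σ, Equiv.apply_symm_apply]

theorem twoS_map {B : Finset (Finset (Fin 13))} {x y : Fin 13} {a b : ℕ} (h : TwoS B x y a b)
    (σ : Equiv.Perm (Fin 13)) : TwoS (mapF σ B) (σ x) (σ y) a b := by
  have hB := h.best.odd
  refine ⟨h.best.map σ, ind_map hB h.ind σ, σ.injective.ne h.ne, ?_, ?_, ?_, ?_⟩
  · rw [MM_mapF hB, h.hx]
  · rw [MM_mapF hB, h.hy]
  · intro u hux huy
    rw [MM_mapF' hB]
    refine h.other _ ?_ ?_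
    · intro h1
      exact hux (by rw [← h1, Equiv.apply_symm_apply])
    · intro h1
      exact huy (by rw [← h1, Equiv.apply_symm_apply])
  · rw [← h.sum, ← Equiv.sum_comp σ]
    exact sum_congr rfl fun z _ => MM_mapF hB σ z

theorem inv_twoS (a b : ℕ) : Inv₂ fun B x y => TwoS B x y a b :=
  fun σ _ _ _ h => twoS_map h σ

/-- a point of minimum `MM` is reduced: at most two quads of its link in every 5-set -/
def Red (D : Finset (Finset (Fin 13))) : Prop :=
  ∀ U : Finset (Fin 13), U.card = 5 → (D ∩ U.powersetCard 4).card ≤ 2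

theorem inv_red : Inv Red := by
  intro σ D h U hU
  have h1 := h (mapS σ.symm U) (by rw [card_mapS]; exact hU)
  rw [← card_mapF σ] at h1
  refine le_trans (le_of_eq ?_) h1
  congr 1
  ext s
  rw [mem_mapF', mem_inter, mem_inter, mem_mapF', mem_powersetCard, mem_powersetCard,
    card_mapS, mapS_subset]

theorem inv_true : Inv fun _ => True := fun _ _ _ => trivial

/-- stage S, generic: the smaller point is reduced -/
theorem twoS_false {a b : ℕ} (hab : a ≤ b) (ha : a ≤ 2) (hb : b ≤ 4) {reps : List ℕ}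
    (hR : RootOK a Red reps) {pos : List (ℕ × ℕ)} (hpos : ∀ r ∈ reps, PosOK r pos)
    {S : ℕ → Set (Finset (Finset (Fin 13)))}
    (hT : ∀ rT ∈ pos, TableOK rT.2 b (fun _ => True) (S rT.2))
    (hkill : ∀ rT ∈ pos, ∀ E ∈ S rT.2, PDead (fun B x y => TwoS B x y a b) rT.1 (cone 11 E))
    {B : Finset (Finset (Fin 13))} {x y : Fin 13} (h : TwoS B x y a b) : False := by
  refine pair_driver (capx := a) (capy := b) inv_red inv_true hR (inv_twoS a b) ?_ hpos hT
    hkill h
  intro B x y h
  have hB := h.best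
  refine ⟨hB.odd, h.ne, ?_, h.hx.le, h.hy.le, ?_, trivial⟩
  · refine h.ind x y h.ne ?_ ?_
    · rw [h.hx]
      omega
    · rw [h.hy]
      omega
  · intro U hU
    by_cases hx : x ∈ U
    · have h1 : link B x ∩ U.powersetCard 4 ⊆ {U.erase x} := by
        intro s hs
        rw [mem_inter, mem_link, mem_powersetCard] at hs
        rw [mem_singleton]
        refine eq_of_subset_of_card_le ?_ ?_
        · intro a ha
          exact mem_erase.2 ⟨fun h2 => hs.1.1 (h2 ▸ ha), hs.2.1 ha⟩
        · rw [card_erase_of_mem hx, hU, hs.2.2]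
      exact (card_le_card h1).trans (by rw [card_singleton]; omega)
    · by_contra hcon
      obtain ⟨u, -, -, hu⟩ := hB.p_eq_three hU hx (by omega)
      rw [h.hx] at hu
      by_cases h1 : u = x
      · rw [h1, h.hx] at hu
        omega
      · by_cases h2 : u = y
        · rw [h2, h.hy] at hu
          omega
        · have := h.other u h1 h2
          omega

end Pool.Agent.Helper33.TY
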