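import Pool.Agent.Helper33.TY.PFin

/-!
MP_8ee768_co, project TH-Y', stage S: words of the roots and of the entries.

`eH T8 DT e` depends on the entry and the pair link only; the word of a pair is
`qS w H = setNb (w + H)` with the root word `w = rootK T8 DT r`.
-/

set_option autoImplicit false
set_option exponentiation.threshold 20000

namespace Pool.Agent.Helper33.TY

open Finset
open Pool.Agent.Helper89.CV (OddCover ofMask)
open Pool.Agent.Helper97.CV Pool.Agent.Helper79.CV Pool.Agent.Helper33.CV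
open Pool.Agent.Helper4.CV (Ind TwoS)

/-- `2 ^ 330` -/
def c330 : ℕ := 0x40000000000000000000000000000000000000000000000000000000000000000000000000000000000

theorem c330_eq : c330 = 2 ^ 330 := by norm_num [c330]

/-- word of an entry -/
def eH (T8 DT e : ℕ) : ℕ :=
  Nat.add (Nat.mul 2 (eW (Nat.mod e c330))) (halfK T8 DT (eW (Nat.mod e c330)))

/-- word of a pair with the flags of the neighbours -/
def qS (w H : ℕ) : ℕ := setNb (Nat.add w H)

theorem fam_mod330 (e : ℕ) : fam 11 4 (e % 2 ^ 330) = fam 11 4 e := by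
  ext s
  rw [mem_fam, mem_fam]
  have h : (L 11 4).length = 330 := by
    rw [length_L]
    decide
  constructor
  · rintro ⟨i, hi, h1, h2⟩
    refine ⟨i, hi, ?_, h2⟩
    rw [Nat.testBit_mod_two_pow, Bool.and_eq_true] at h1
    exact h1.2
  · rintro ⟨i, hi, h1, h2⟩
    refine ⟨i, hi, ?_, h2⟩
    rw [Nat.testBit_mod_two_pow, decide_eq_true (by omega), Bool.true_and]
    exact h1

/-- **the word of a pair** -/
theorem pw_eH {B : Finset (Finset (Fin 13))} (hB : OddCover B) {T T8 DT r w e : ℕ}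
    (hT : T < 2 ^ 165) (h8 : T8 = tW T) (hD : DT = degK (tW T)) (hr : r >>> 330 = T)
    (hw : w = rootK T8 DT r) (h12 : link B 12 = fam 12 4 r)
    (h11 : lane B 11 = cone 11 (fam 11 4 e)) : PW B (Nat.add w (eH T8 DT e)) := by
  have hr' : r < 2 ^ 495 := by
    rw [Nat.shiftRight_eq_div_pow] at hr
    have h1 : r / 2 ^ 330 < 2 ^ 165 := by rw [hr]; exact hT
    rw [Nat.div_lt_iff_lt_mul (Nat.two_pow_pos _), ← pow_add] at h1
    exact h1
  have h := pw_pairK hB hr' (Nat.mod_lt e (Nat.two_pow_pos 330)) h12 (by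
    rw [fam_mod330]
    exact h11)
  rw [hr, ← hD, ← h8, ← hw] at h
  have h2 : pairK w T8 DT (e % 2 ^ 330) = Nat.add w (eH T8 DT e) := by
    unfold pairK eH
    rw [c330_eq]
    rfl
  rw [← h2]
  exact h

/-- the word of a pair of stage S -/
theorem pw_qS {B : Finset (Finset (Fin 13))} {a b : ℕ} (h : TwoS B 12 11 a b) (ha : a ≤ 6)
    (hb : b ≤ 6) {T T8 DT r w e : ℕ} (hT : T < 2 ^ 165) (h8 : T8 = tW T)
    (hD : DT = degK (tW T)) (hr : r >>> 330 = T) (hw : w = rootK T8 DT r)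
    (h12 : link B 12 = fam 12 4 r) (h11 : lane B 11 = cone 11 (fam 11 4 e)) :
    PW B (qS w (eH T8 DT e)) :=
  setNb_pw h ha hb (pw_eH h.best.odd hT h8 hD hr hw h12 h11)

/-- check of a list of root words -/
def rwOk (T a T8 DT : ℕ) (rw : List (ℕ × ℕ × ℕ)) : Bool :=
  rw.all fun p => Nat.beq p.1 a && Nat.beq (Nat.shiftRight p.2.1 330) T &&
    Nat.beq p.2.2 (rootK T8 DT p.2.1)

theorem rwOk_true {T a T8 DT : ℕ} {rw : List (ℕ × ℕ × ℕ)} (h : rwOk T a T8 DT rw = true) :
    ∀ p ∈ rw, p.1 = a ∧ p.2.1 >>> 330 = T ∧ p.2.2 = rootK T8 DT p.2.1 := by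
  intro p hp
  unfold rwOk at h
  rw [List.all_eq_true] at h
  have h1 := h p hp
  rw [Bool.and_eq_true, Bool.and_eq_true] at h1
  exact ⟨Nat.eq_of_beq_eq_true h1.1.1, Nat.eq_of_beq_eq_true h1.1.2,
    Nat.eq_of_beq_eq_true h1.2⟩

end Pool.Agent.Helper33.TY
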