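import Pool.Agent.Helper33.CV.Cube

/-!
MP_8ee768_co, project TH-Y': counting by one multiplication.

Words with `N` fields of 8 bits, the field index is a mask. `corr K C W = (W * C) >>> (8 * K)` with
`C = sum of 2 ^ (8 * (K - c))` has in field `m` the sum of the fields `m + c` of `W`. If `W` lives on
the masks of size `i + j`, `m` has size `i` and `c` runs through the masks of size `j`, then only the
`c` disjoint from `m` contribute (`card_ofMask_add_eq`).
-/

set_option autoImplicit false

namespace Pool.Agent.Helper33.TY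

open Finset
open Pool.Agent.Helper89.CV (OddCover ofMask)
open Pool.Agent.Helper97.CV Pool.Agent.Helper79.CV Pool.Agent.Helper33.CV
open Pool.Agent.Helper63.SIMD

/-! ## popcount of a sum -/

/-- number of ones among the `n` low bits -/
def pcN : ℕ → ℕ → ℕ
  | 0, _ => 0
  | n + 1, m => m % 2 + pcN n (m / 2)

theorem card_filter_testBit (n m : ℕ) :
    (univ.filter fun i : Fin n => m.testBit i.val = true).card = pcN n m := by
  rw [card_filter]
  induction n generalizing m with
  | zero => rfl
  | succ n ih =>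
    rw [Fin.sum_univ_succ]
    have h1 : ∀ i : Fin n, m.testBit (i.succ).val = (m / 2).testBit i.val := by
      intro i
      rw [Fin.val_succ, Nat.testBit_succ]
    simp only [h1]
    rw [ih (m / 2)]
    show _ = m % 2 + pcN n (m / 2)
    congr 1
    rw [Fin.val_zero, Nat.testBit_zero]
    rcases Nat.mod_two_eq_zero_or_one m with h | h <;> simp [h]

theorem card_ofMask (m : ℕ) : (ofMask m).card = pcN 13 m := card_filter_testBit 13 m

theorem pcN_add_le {n a b c : ℕ} (hc : c ≤ 1) (h : a + b + c < 2 ^ n) :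
    pcN n (a + b + c) ≤ pcN n a + pcN n b + c := by
  induction n generalizing a b c with
  | zero =>
    show (0 : ℕ) ≤ _
    exact Nat.zero_le _
  | succ n ih =>
    rw [pow_succ] at h
    show (a + b + c) % 2 + pcN n ((a + b + c) / 2) ≤
      a % 2 + pcN n (a / 2) + (b % 2 + pcN n (b / 2)) + c
    have h1 : (a + b + c) / 2 = a / 2 + b / 2 + (a % 2 + b % 2 + c) / 2 := by omega
    have h2 := ih (a := a / 2) (b := b / 2) (c := (a % 2 + b % 2 + c) / 2) (by omega) (by omega)
    rw [h1]
    omega

theorem pcN_add_lt {n a b : ℕ} (h : a + b < 2 ^ n) {i : ℕ} (ha : a.testBit i = true)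
    (hb : b.testBit i = true) : pcN n (a + b) < pcN n a + pcN n b := by
  induction n generalizing a b i with
  | zero =>
    have h1 : a = 0 := by
      rw [pow_zero] at h
      omega
    rw [h1, Nat.zero_testBit] at ha
    exact absurd ha Bool.false_ne_true
  | succ n ih =>
    rw [pow_succ] at h
    show (a + b) % 2 + pcN n ((a + b) / 2) <
      a % 2 + pcN n (a / 2) + (b % 2 + pcN n (b / 2))
    by_cases hab : a % 2 = 1 ∧ b % 2 = 1
    · have h1 : (a + b) / 2 = a / 2 + b / 2 + 1 := by omega
      have h2 := pcN_add_le (n := n) (a := a / 2) (b := b / 2) (c := 1) (le_refl _) (by omega)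
      rw [h1]
      omega
    · have h1 : (a + b) / 2 = a / 2 + b / 2 := by omega
      cases i with
      | zero =>
        rw [Nat.testBit_zero, decide_eq_true_eq] at ha hb
        exact absurd ⟨ha, hb⟩ hab
      | succ i =>
        rw [Nat.testBit_succ] at ha hb
        have h2 := ih (a := a / 2) (b := b / 2) (by omega) ha hb
        rw [h1]
        omega

theorem pcN_add_eq {n a b : ℕ} (h : ∀ i, a.testBit i = true → b.testBit i = false) :
    pcN n (a + b) = pcN n a + pcN n b := by
  induction n generalizing a b with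
  | zero => rfl
  | succ n ih =>
    show (a + b) % 2 + pcN n ((a + b) / 2) =
      a % 2 + pcN n (a / 2) + (b % 2 + pcN n (b / 2))
    have h0 : ¬ (a % 2 = 1 ∧ b % 2 = 1) := by
      rintro ⟨h1, h2⟩
      have h3 := h 0 (by rw [Nat.testBit_zero, decide_eq_true_eq]; exact h1)
      rw [Nat.testBit_zero, decide_eq_false_iff_not] at h3
      exact h3 h2
    have h1 : (a + b) / 2 = a / 2 + b / 2 := by omega
    have h2 := ih (a := a / 2) (b := b / 2) fun i hi => by
      rw [← Nat.testBit_succ] at hi ⊢
      exact h (i + 1) hi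
    rw [h1, h2]
    omega

/-- sizes add up iff there is no carry -/
theorem card_ofMask_add_eq {a b : ℕ} (h : a + b < 2 ^ 13) :
    (ofMask (a + b)).card = (ofMask a).card + (ofMask b).card ↔
      Disjoint (ofMask a) (ofMask b) := by
  rw [card_ofMask, card_ofMask, card_ofMask]
  constructor
  · intro h1
    rw [disjoint_left]
    intro i ha hb
    rw [mem_ofMask] at ha hb
    exact absurd h1 (pcN_add_lt h ha hb).ne
  · intro h1
    refine pcN_add_eq fun i hi => ?_
    by_contra hb
    rw [Bool.not_eq_false] at hb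
    have hi13 : i < 13 := by
      by_contra hc
      have h2 : a < 2 ^ i := lt_of_lt_of_le (lt_of_le_of_lt (Nat.le_add_right a b) h)
        (Nat.pow_le_pow_right (by norm_num) (by omega))
      rw [Nat.testBit_lt_two_pow h2] at hi
      exact Bool.false_ne_true hi
    exact disjoint_left.1 h1 ((mem_ofMask (i := ⟨i, hi13⟩)).2 hi)
      ((mem_ofMask (i := ⟨i, hi13⟩)).2 hb)

theorem testBit_add_of_disjoint {a b : ℕ} (h : ∀ i, a.testBit i = true → b.testBit i = false)
    (i : ℕ) : (a + b).testBit i = (a.testBit i || b.testBit i) := by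
  have h0 : ¬ (a % 2 = 1 ∧ b % 2 = 1) := by
    rintro ⟨h1, h2⟩
    have h3 := h 0 (by rw [Nat.testBit_zero, decide_eq_true_eq]; exact h1)
    rw [Nat.testBit_zero, decide_eq_false_iff_not] at h3
    exact h3 h2
  induction i generalizing a b with
  | zero =>
    rw [Nat.testBit_zero, Nat.testBit_zero, Nat.testBit_zero, ← Bool.decide_or, decide_eq_decide]
    omega
  | succ i ih =>
    rw [Nat.testBit_succ, Nat.testBit_succ, Nat.testBit_succ,
      show (a + b) / 2 = a / 2 + b / 2 by omega]
    have h4 : ∀ i, (a / 2).testBit i = true → (b / 2).testBit i = false := fun i hi => by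
      rw [← Nat.testBit_succ] at hi ⊢
      exact h (i + 1) hi
    refine ih h4 ?_
    rintro ⟨h1, h2⟩
    have h3 := h4 0 (by rw [Nat.testBit_zero, decide_eq_true_eq]; exact h1)
    rw [Nat.testBit_zero, decide_eq_false_iff_not] at h3
    exact h3 h2

/-- without a carry the sum is the union -/
theorem ofMask_add_of_disjoint {a b : ℕ} (h : a + b < 2 ^ 13)
    (hd : Disjoint (ofMask a) (ofMask b)) : ofMask (a + b) = ofMask a ∪ ofMask b := by
  have h1 : ∀ i, a.testBit i = true → b.testBit i = false := by
    intro i hi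
    by_contra hb
    rw [Bool.not_eq_false] at hb
    have hi13 : i < 13 := by
      by_contra hc
      have h2 : a < 2 ^ i := lt_of_lt_of_le (lt_of_le_of_lt (Nat.le_add_right a b) h)
        (Nat.pow_le_pow_right (by norm_num) (by omega))
      rw [Nat.testBit_lt_two_pow h2] at hi
      exact Bool.false_ne_true hi
    exact disjoint_left.1 hd ((mem_ofMask (i := ⟨i, hi13⟩)).2 hi)
      ((mem_ofMask (i := ⟨i, hi13⟩)).2 hb)
  ext i
  rw [mem_union, mem_ofMask, mem_ofMask, mem_ofMask, testBit_add_of_disjoint h1,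
    Bool.or_eq_true]

/-! ## the correlation -/

/-- sum of the fields `m + c`, `C = cC K cs` -/
def corr (K C W : ℕ) : ℕ := Nat.shiftRight (Nat.mul W C) (8 * K)

/-- the constant of a list of shifts -/
def cC (K : ℕ) : List ℕ → ℕ
  | [] => 0
  | c :: cs => 2 ^ (8 * (K - c)) + cC K cs

theorem pk_append {W M N : ℕ} (f : ℕ → ℕ) :
    pk W (M + N) f = pk W M f + 2 ^ (W * M) * pk W N (fun i => f (i + M)) := by
  unfold pk
  rw [Finset.sum_range_add, Finset.mul_sum]
  congr 1
  refine Finset.sum_congr rfl fun i _ => ?_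
  rw [Nat.add_comm M i, Nat.mul_add, pow_add]
  ring

theorem pk_shiftRight {W M N : ℕ} (f : ℕ → ℕ) (hf : ∀ i < M, f i < 2 ^ W) :
    pk W (M + N) f >>> (W * M) = pk W N (fun i => f (i + M)) := by
  rw [pk_append, Nat.shiftRight_eq_div_pow, Nat.add_mul_div_left _ _ (Nat.two_pow_pos _),
    Nat.div_eq_of_lt (pk_lt hf), Nat.zero_add]

theorem pk_mul_pow {N K d : ℕ} (hd : d ≤ K) (a : ℕ → ℕ) (ha0 : ∀ i, N ≤ i → a i = 0) :
    pk 8 N a * 2 ^ (8 * d) = pk 8 (N + K) (fun j => if d ≤ j then a (j - d) else 0) := by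
  obtain ⟨e, rfl⟩ := Nat.exists_eq_add_of_le hd
  rw [show N + (d + e) = d + (N + e) by omega, pk_append]
  have h1 : pk 8 d (fun j => if d ≤ j then a (j - d) else 0) = 0 := by
    rw [pk_congr (b := fun _ => 0) fun i hi => if_neg (by omega)]
    unfold pk
    simp
  rw [h1, Nat.zero_add, Nat.mul_comm]
  congr 1
  rw [pk_append (M := N) (N := e)]
  have h2 : pk 8 e (fun i => (fun i => if d ≤ i + d then a (i + d - d) else 0) (i + N)) = 0 := by
    rw [pk_congr (b := fun _ => 0) fun i hi => ?_]
    · unfold pk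
      simp
    · show (if d ≤ i + N + d then a (i + N + d - d) else 0) = 0
      rw [if_pos (by omega), ha0 _ (by omega)]
  rw [h2, Nat.mul_zero, Nat.add_zero]
  refine pk_congr fun i _ => ?_
  rw [if_pos (by omega), Nat.add_sub_cancel]

theorem pk_mul_cC {N K : ℕ} (a : ℕ → ℕ) (ha0 : ∀ i, N ≤ i → a i = 0) (cs : List ℕ) :
    pk 8 N a * cC K cs = pk 8 (N + K)
      (fun j => (cs.map fun c => if K - c ≤ j then a (j - (K - c)) else 0).sum) := by
  induction cs with
  | nil =>
    show pk 8 N a * 0 = _
    rw [Nat.mul_zero]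
    unfold pk
    simp
  | cons c cs ih =>
    show pk 8 N a * (2 ^ (8 * (K - c)) + cC K cs) = _
    rw [Nat.mul_add, ih, pk_mul_pow (Nat.sub_le K c) a ha0, pk_add]
    refine pk_congr fun i _ => ?_
    rw [List.map_cons, List.sum_cons]

theorem sum_map_le {α : Type} (l : List α) (f : α → ℕ) {b : ℕ} (h : ∀ c ∈ l, f c ≤ b) :
    (l.map f).sum ≤ l.length * b := by
  induction l with
  | nil => simp
  | cons c l ih =>
    rw [List.map_cons, List.sum_cons, List.length_cons, Nat.add_mul, Nat.one_mul]
    have h1 := h c (List.mem_cons_self)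
    have h2 := ih fun d hd => h d (List.mem_cons_of_mem _ hd)
    omega

/-- THE CORRELATION -/
theorem corr_pk {N K b : ℕ} {a : ℕ → ℕ} (ha0 : ∀ i, N ≤ i → a i = 0) (ha : ∀ i, a i ≤ b)
    {cs : List ℕ} (hcs : ∀ c ∈ cs, c ≤ K) (hb : cs.length * b < 256) :
    corr K (cC K cs) (pk 8 N a) = pk 8 N (fun m => (cs.map fun c => a (m + c)).sum) := by
  show (pk 8 N a * cC K cs) >>> (8 * K) = _
  rw [pk_mul_cC a ha0, Nat.add_comm N K, pk_shiftRight]
  · refine pk_congr fun i _ => ?_
    congr 1
    refine List.map_congr_left fun c hc => ?_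
    have := hcs c hc
    rw [if_pos (by omega)]
    congr 1
    omega
  · intro i _
    refine lt_of_le_of_lt (sum_map_le _ _ (b := b) fun c _ => ?_) hb
    split_ifs
    · exact ha _
    · exact Nat.zero_le _

end Pool.Agent.Helper33.TY
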