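import Pool.Agent.Helper54.TY.SEng

/-!
MP_8ee768_co, project TH-Y', stage S: the double loop of a unit, entries outside, roots inside.

`rs` is a list of triples (value `a` of the root, code `r` of the root, word `w` of the root),
`h e` is the word of the entry, `q w (h e)` the word of the pair. The certificates form one list,
entry by entry, the roots in the order of `rs`.
-/

set_option autoImplicit false

namespace Pool.Agent.Helper33.TY

open Finset
open Pool.Agent.Helper89.CV (OddCover ofMask)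
open Pool.Agent.Helper97.CV Pool.Agent.Helper79.CV
open Pool.Agent.Helper4.CV Pool.Agent.Helper25.TY
open Pool.Agent.Helper54.TY (SOps SOK pairOk pairOk_sound)

/-- the check of one pair, root given by a triple -/
def pOk (o : ℕ → SOps) (q : ℕ → ℕ → ℕ) (rx : ℕ → ℕ → ℕ → ℕ → ℕ → Bool) (H e c : ℕ)
    (p : ℕ × ℕ × ℕ) : Bool :=
  @Prod.rec ℕ (ℕ × ℕ) (fun _ => Bool) (fun a p' => @Prod.rec ℕ ℕ (fun _ => Bool)
    (fun r w => pairOk (o a) (fun _ => q w H) (rx a r) e c) p') p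

/-- the loop over the roots, `k` is the continuation on the rest of the certificates -/
def rLoop (o : ℕ → SOps) (q : ℕ → ℕ → ℕ) (rx : ℕ → ℕ → ℕ → ℕ → ℕ → Bool) (H e : ℕ)
    (rs : List (ℕ × ℕ × ℕ)) : List ℕ → (List ℕ → Bool) → Bool :=
  @List.rec (ℕ × ℕ × ℕ) (fun _ => List ℕ → (List ℕ → Bool) → Bool) (fun cs k => k cs)
    (fun p _ ih cs k => @List.rec ℕ (fun _ => Bool) false
      (fun c cs' _ => @Bool.rec (fun _ => Bool) false (ih cs' k) (pOk o q rx H e c p)) cs) rs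

/-- the loop over the entries -/
def eOk (o : ℕ → SOps) (q : ℕ → ℕ → ℕ) (h : ℕ → ℕ) (rx : ℕ → ℕ → ℕ → ℕ → ℕ → Bool)
    (rs : List (ℕ × ℕ × ℕ)) (es : List ℕ) : List ℕ → Bool :=
  @List.rec ℕ (fun _ => List ℕ → Bool) (fun _ => true)
    (fun e _ ih cs => rLoop o q rx (h e) e rs cs ih) es

section

variable {o : ℕ → SOps} {q : ℕ → ℕ → ℕ} {h : ℕ → ℕ} {rx : ℕ → ℕ → ℕ → ℕ → ℕ → Bool}

theorem rLoop_true {H e : ℕ} : ∀ (rs : List (ℕ × ℕ × ℕ)) (cs : List ℕ) (k : List ℕ → Bool),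
    rLoop o q rx H e rs cs k = true →
    (∀ p ∈ rs, ∃ c, pOk o q rx H e c p = true) ∧ ∃ cs', k cs' = true
  | [], cs, k, hk => ⟨fun _ hp => absurd hp List.not_mem_nil, cs, hk⟩
  | p :: rs, [], k, hk => absurd hk Bool.false_ne_true
  | p :: rs, c :: cs, k, hk => by
    have e1 : rLoop o q rx H e (p :: rs) (c :: cs) k =
        @Bool.rec (fun _ => Bool) false (rLoop o q rx H e rs cs k) (pOk o q rx H e c p) := rfl
    rw [e1] at hk
    cases hp : pOk o q rx H e c p with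
    | false =>
      rw [hp] at hk
      exact absurd hk Bool.false_ne_true
    | true =>
      rw [hp] at hk
      have h2 := rLoop_true rs cs k hk
      refine ⟨fun p' hp' => ?_, h2.2⟩
      rcases List.mem_cons.1 hp' with rfl | hp'
      · exact ⟨c, hp⟩
      · exact h2.1 p' hp'

theorem eOk_true {rs : List (ℕ × ℕ × ℕ)} : ∀ (es cs : List ℕ), eOk o q h rx rs es cs = true →
    ∀ e ∈ es, ∀ p ∈ rs, ∃ c, pOk o q rx (h e) e c p = true
  | [], _, _ => fun _ he => absurd he List.not_mem_nil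
  | e :: es, cs, hk => by
    have h1 := rLoop_true (H := h e) (e := e) rs cs (eOk o q h rx rs es) hk
    intro e' he' p hp
    rcases List.mem_cons.1 he' with rfl | he'
    · exact h1.1 p hp
    · obtain ⟨cs', h2⟩ := h1.2
      exact eOk_true es cs' h2 e' he' p hp

end

/-- **a chunk of entries is dead for all roots**, context `C a B x y` for the roots of value `a` -/
theorem pdead_of_eOk {C : ℕ → Finset (Finset (Fin 13)) → Fin 13 → Fin 13 → Prop}
    {o : ℕ → SOps} {q : ℕ → ℕ → ℕ} {h : ℕ → ℕ} {rx : ℕ → ℕ → ℕ → ℕ → ℕ → Bool}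
    {W : Finset (Finset (Fin 13)) → ℕ → Prop} {rs : List (ℕ × ℕ × ℕ)}
    (ho : ∀ p ∈ rs, SOK (o p.1) (fun B => C p.1 B 12 11) W)
    (hq : ∀ p ∈ rs, ∀ (B : Finset (Finset (Fin 13))) (e : ℕ), C p.1 B 12 11 →
      link B 12 = fam 12 4 p.2.1 → lane B 11 = cone 11 (fam 11 4 e) → W B (q p.2.2 (h e)))
    (hrx : ∀ p ∈ rs, ∀ k m e, rx p.1 p.2.1 k m e = true →
      PDead (C p.1) p.2.1 (cone 11 (fam 11 4 e)))
    {es cs : List ℕ} (hk : eOk o q h rx rs es cs = true) :
    ∀ p ∈ rs, ∀ e ∈ es, PDead (C p.1) p.2.1 (cone 11 (fam 11 4 e)) := by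
  intro p hp e he B hQ hl hu
  obtain ⟨c, hc⟩ := eOk_true es cs hk e he p hp
  have h1 : pairOk (o p.1) (fun _ => q p.2.2 (h e)) (rx p.1 p.2.1) e c = true := hc
  have h2 : pairOk (o p.1) (fun _ => q p.2.2 (h e)) (rx p.1 p.2.1) e c = false := by
    refine pairOk_sound (E := fun B e' => e' = e ∧ link B 12 = fam 12 4 p.2.1 ∧
      lane B 11 = cone 11 (fam 11 4 e')) (ho p hp) ?_ ?_ e c B hQ ⟨rfl, hl, hu⟩
    · rintro B' e' hC ⟨rfl, hl', hu'⟩
      exact hq p hp B' e' hC hl' hu'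
    · rintro B' k m e' hC ⟨rfl, hl', hu'⟩
      rw [← Bool.not_eq_true]
      exact fun h1 => hrx p hp k m e' h1 B' hC hl' hu'
  rw [h1] at h2
  exact Bool.noConfusion h2

end Pool.Agent.Helper33.TY
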