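import Pool.Agent.Helper33.TY.Corr
import Pool.Agent.Helper25.TY.SCtx

/-!
MP_8ee768_co, project TH-Y': byte words of functions on the subsets of the eleven points `< 11`.

`bw g` has the value `g s` in the field `mk s`. `corr_bw`: one multiplication sums over all
supersets. `lay v i`: the value `v` on all sets of size `i` (kernel recursion `lay8`).
-/

set_option autoImplicit false

namespace Pool.Agent.Helper33.TY

open Finset
open Pool.Agent.Helper89.CV (OddCover ofMask)
open Pool.Agent.Helper97.CV Pool.Agent.Helper79.CV Pool.Agent.Helper33.CV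
open Pool.Agent.Helper63.SIMD
open Pool.Agent.Helper25.TY (R11 mem_R11)

/-- the byte word of a function on sets -/
def bw (g : Finset (Fin 13) → ℕ) : ℕ := pk 8 2048 (fun m => g (ofMask m))

theorem mk_lt_R11 {s : Finset (Fin 13)} : mk s < 2048 ↔ s ⊆ R11 := by
  rw [show (2048 : ℕ) = 2 ^ 11 by norm_num, mk_lt_iff]
  constructor
  · intro h a ha
    exact mem_R11.2 (h a ha)
  · intro h a ha
    exact mem_R11.1 (h ha)

theorem ofMask_subset_R11 {m : ℕ} (h : m < 2048) : ofMask m ⊆ R11 := by
  rw [← mk_lt_R11, mk_ofMask (by omega)]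
  exact h

theorem bw_congr {g h : Finset (Fin 13) → ℕ} (hgh : ∀ s ⊆ R11, g s = h s) : bw g = bw h :=
  pk_congr fun _ hi => hgh _ (ofMask_subset_R11 hi)

theorem bw_add (g h : Finset (Fin 13) → ℕ) : bw g + bw h = bw fun s => g s + h s := pk_add

theorem bw_mul (c : ℕ) (g : Finset (Fin 13) → ℕ) : c * bw g = bw fun s => c * g s := mul_pk c

theorem bw_sub {g h : Finset (Fin 13) → ℕ} (hgh : ∀ s, h s ≤ g s) :
    bw g - bw h = bw fun s => g s - h s := pk_sub fun _ _ => hgh _

theorem bw_land {g h : Finset (Fin 13) → ℕ} (hg : ∀ s, g s < 256) (hh : ∀ s, h s < 256) :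
    bw g &&& bw h = bw fun s => g s &&& h s := pk_land (fun _ _ => hg _) (fun _ _ => hh _)

theorem bw_sub' {g h : Finset (Fin 13) → ℕ} (hgh : ∀ s ⊆ R11, h s ≤ g s) :
    bw g - bw h = bw fun s => g s - h s := pk_sub fun _ hi => hgh _ (ofMask_subset_R11 hi)

theorem bw_land' {g h : Finset (Fin 13) → ℕ} (hg : ∀ s ⊆ R11, g s < 256)
    (hh : ∀ s ⊆ R11, h s < 256) :
    bw g &&& bw h = bw fun s => g s &&& h s :=
  pk_land (fun _ hi => hg _ (ofMask_subset_R11 hi)) (fun _ hi => hh _ (ofMask_subset_R11 hi))

theorem bw_lt {g : Finset (Fin 13) → ℕ} (hg : ∀ s ⊆ R11, g s < 256) : bw g < 2 ^ 16384 :=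
  pk_lt fun _ hi => hg _ (ofMask_subset_R11 hi)

theorem fld_bw {g : Finset (Fin 13) → ℕ} (hg : ∀ s ⊆ R11, g s < 256) {m : ℕ} (hm : m < 2048) :
    fld 8 (bw g) m = g (ofMask m) :=
  fld_pk (W := 8) (fun _ hi => hg _ (ofMask_subset_R11 hi)) hm

/-- the value `v` on all sets of size `i` -/
def lay (v i : ℕ) : ℕ := bw fun s => if s.card = i then v else 0

/-- `lay` by recursion -/
def lay8 (v : ℕ) : ℕ → ℕ → ℕ
  | _, 0 => v
  | 0, _ + 1 => 0
  | n + 1, k + 1 => lay8 v n (k + 1) + 2 ^ (8 * 2 ^ n) * lay8 v n k

theorem card_ofMask_add_two_pow {n m : ℕ} (hn : n < 13) (hm : m < 2 ^ n) :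
    (ofMask (m + 2 ^ n)).card = (ofMask m).card + 1 := by
  have h := ofMask_add (m := m) ⟨n, hn⟩ hm
  simp only at h
  rw [h, card_insert_of_notMem (notMem_ofMask ⟨n, hn⟩ hm)]

theorem lay8_eq (v : ℕ) {n : ℕ} (hn : n ≤ 13) (k : ℕ) :
    lay8 v n k = pk 8 (2 ^ n) (fun m => if (ofMask m).card = k then v else 0) := by
  have hzero : ∀ n : ℕ, n ≤ 13 →
      pk 8 (2 ^ n) (fun m => if (ofMask m).card = 0 then v else 0) = v := by
    intro n hn
    have hp : 2 ^ n = (2 ^ n - 1) + 1 := by
      have := Nat.two_pow_pos n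
      omega
    rw [hp, pk_cons]
    have h1 : pk 8 (2 ^ n - 1) (fun i => if (ofMask (i + 1)).card = 0 then v else 0) = 0 := by
      rw [pk_congr (b := fun _ => 0) fun i hi => ?_]
      · unfold pk
        simp
      · have h2 : 2 ^ n ≤ 2 ^ 13 := Nat.pow_le_pow_right (by norm_num) hn
        rw [if_neg]
        intro h3
        rw [card_eq_zero, ← ofMask_zero] at h3
        have := ofMask_injOn (show i + 1 < 2 ^ 13 by omega) (by norm_num) h3
        omega
    rw [h1, Nat.mul_zero, Nat.zero_add, ofMask_zero, card_empty, if_pos rfl]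
  induction n generalizing k with
  | zero =>
    cases k with
    | zero => exact (hzero 0 hn).symm
    | succ k =>
      show 0 = _
      have h1 : pk 8 (2 ^ 0) (fun m => if (ofMask m).card = k + 1 then v else 0) =
          pk 8 0 (fun m => if (ofMask m).card = k + 1 then v else 0) +
          (if (ofMask 0).card = k + 1 then v else 0) * 2 ^ (8 * 0) := pk_succ
      rw [h1, pk_zero, ofMask_zero, card_empty, if_neg (by omega)]
      simp
  | succ n ih =>
    cases k with
    | zero => exact (hzero (n + 1) hn).symm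
    | succ k =>
      show lay8 v n (k + 1) + 2 ^ (8 * 2 ^ n) * lay8 v n k = _
      rw [ih (by omega), ih (by omega), pow_succ, Nat.mul_two, pk_append]
      congr 2
      refine pk_congr fun i hi => ?_
      rw [card_ofMask_add_two_pow (by omega) hi]
      simp only [Nat.add_right_cancel_iff]

theorem lay8_lay (v i : ℕ) : lay8 v 11 i = lay v i := by
  rw [lay8_eq v (by norm_num)]
  rfl

theorem land_255 {x : ℕ} (h : x < 256) : x &&& 255 = x := by
  rw [show (255 : ℕ) = 2 ^ 8 - 1 by norm_num, Nat.and_two_pow_sub_one_eq_mod]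
  exact Nat.mod_eq_of_lt h

/-- masking with a layer -/
theorem bw_land_lay {g : Finset (Fin 13) → ℕ} (hg : ∀ s ⊆ R11, g s < 256) (i : ℕ) :
    bw g &&& lay 255 i = bw fun s => if s.card = i then g s else 0 := by
  unfold lay
  rw [bw_land' hg (fun s _ => by split_ifs <;> norm_num)]
  refine bw_congr fun s hs => ?_
  split_ifs
  · exact land_255 (hg s hs)
  · exact Nat.and_zero _

/-- halving all fields and masking with a layer -/
theorem bw_half {g : Finset (Fin 13) → ℕ} (hg : ∀ s ⊆ R11, g s < 256) (i : ℕ) :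
    bw g >>> 1 &&& lay 127 i = bw fun s => if s.card = i then g s / 2 else 0 := by
  have h1 : bw g >>> 1 &&& lay 127 i = (bw g >>> 1 &&& lay 127 i) &&& lay 127 i := by
    rw [Nat.and_assoc, Nat.and_self]
  have hf : ∀ m, (fld 8 (bw g >>> 1 &&& lay 127 i) m) =
      if m < 2048 then (if (ofMask m).card = i then g (ofMask m) / 2 else 0) else 0 := by
    intro m
    refine Nat.eq_of_testBit_eq fun j => ?_
    rw [Pool.Agent.Helper91.TY.testBit_fld, Nat.testBit_and, Nat.testBit_shiftRight]
    have hl : ∀ t, (lay 127 i).testBit t = (decide (t % 8 < 7) && (decide (t < 16384) &&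
        decide ((ofMask (t / 8)).card = i))) := by
      intro t
      have h2 : (lay 127 i).testBit t = (fld 8 (lay 127 i) (t / 8)).testBit (t % 8) := by
        rw [Pool.Agent.Helper91.TY.testBit_fld, Nat.div_add_mod,
          decide_eq_true (Nat.mod_lt t (by norm_num)), Bool.true_and]
      by_cases ht : t < 16384
      · rw [h2, show lay 127 i = bw _ from rfl, fld_bw (fun s _ => by split_ifs <;> norm_num)
          (by omega), decide_eq_true ht, Bool.true_and]
        by_cases hc : (ofMask (t / 8)).card = i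
        · rw [if_pos hc, decide_eq_true hc, Bool.and_true,
            show (127 : ℕ) = 2 ^ 7 - 1 by norm_num, Nat.testBit_two_pow_sub_one]
        · rw [if_neg hc, decide_eq_false hc, Bool.and_false, Nat.zero_testBit]
      · rw [decide_eq_false ht, Bool.false_and, Bool.and_false]
        refine Nat.testBit_lt_two_pow ?_
        refine lt_of_lt_of_le (bw_lt fun s _ => ?_) (Nat.pow_le_pow_right (by norm_num)
          (by omega : 16384 ≤ t))
        split_ifs <;> norm_num
    rw [hl]
    by_cases hj : j < 8
    · have e1 : (8 * m + j) % 8 = j := by omega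
      have e2 : (8 * m + j) / 8 = m := by omega
      rw [e1, e2, decide_eq_true hj, Bool.true_and]
      by_cases hm : m < 2048
      · rw [decide_eq_true (show 8 * m + j < 16384 by omega), Bool.true_and, if_pos hm]
        by_cases hc : (ofMask m).card = i
        · rw [if_pos hc, decide_eq_true hc, Bool.and_true, Nat.testBit_div_two]
          by_cases hj7 : j < 7
          · rw [decide_eq_true hj7, Bool.and_true]
            have h3 : (bw g).testBit (1 + (8 * m + j)) = (fld 8 (bw g) m).testBit (j + 1) := by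
              rw [Pool.Agent.Helper91.TY.testBit_fld, decide_eq_true (show j + 1 < 8 by omega),
                Bool.true_and]
              congr 1
              omega
            rw [h3, fld_bw hg hm]
          · rw [decide_eq_false hj7, Bool.and_false]
            have h4 : g (ofMask m) < 2 ^ (j + 1) :=
              lt_of_lt_of_le (hg _ (ofMask_subset_R11 hm))
                (show 2 ^ 8 ≤ 2 ^ (j + 1) from Nat.pow_le_pow_right (by norm_num) (by omega))
            rw [Nat.testBit_lt_two_pow h4]
        · rw [if_neg hc, decide_eq_false hc, Bool.and_false, Bool.and_false, Nat.zero_testBit]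
      · rw [decide_eq_false (show ¬ 8 * m + j < 16384 by omega), Bool.false_and, Bool.and_false,
          Bool.and_false, if_neg hm, Nat.zero_testBit]
    · rw [decide_eq_false hj, Bool.false_and]
      split_ifs with h5 h6
      · rw [Nat.testBit_lt_two_pow]
        have h7 := hg _ (ofMask_subset_R11 h5)
        exact lt_of_le_of_lt (Nat.div_le_self _ 2) (lt_of_lt_of_le h7
          (show 2 ^ 8 ≤ 2 ^ j from Nat.pow_le_pow_right (by norm_num) (by omega)))
      · rw [Nat.zero_testBit]
      · rw [Nat.zero_testBit]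
  have hlt : bw g >>> 1 &&& lay 127 i < 2 ^ (8 * 2048) := by
    refine lt_of_le_of_lt Nat.and_le_right (bw_lt fun s _ => ?_)
    split_ifs <;> norm_num
  rw [← pk_fld hlt]
  show _ = pk 8 2048 (fun m => (fun s => if s.card = i then g s / 2 else 0) (ofMask m))
  refine pk_congr fun m hm => ?_
  rw [hf m, if_pos hm]

/-! ## sums over supersets -/

theorem sum_L11 (j : ℕ) (f : Finset (Fin 13) → ℕ) :
    ((L 11 j).map fun c => f (ofMask c)).sum = ∑ t ∈ R11.powersetCard j, f t := by
  rw [← List.sum_toFinset _ (nodup_L 11 j)]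
  refine sum_bij (fun c _ => ofMask c) ?_ ?_ (fun s hs => ⟨mk s, ?_⟩) (fun _ _ => rfl)
  · intro c hc
    rw [List.mem_toFinset, mem_L (by norm_num)] at hc
    rw [mem_powersetCard]
    exact ⟨ofMask_subset_R11 (by have := hc.1; norm_num at this; exact this), hc.2⟩
  · intro a ha b hb hab
    rw [List.mem_toFinset, mem_L (by norm_num)] at ha hb
    have h1 := ha.1
    have h2 := hb.1
    norm_num at h1 h2
    exact ofMask_injOn (by omega) (by omega) hab
  · rw [mem_powersetCard] at hs
    refine ⟨?_, ofMask_mk s⟩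
    rw [List.mem_toFinset, mem_L (by norm_num), ofMask_mk]
    refine ⟨?_, hs.2⟩
    have h1 := mk_lt_R11.2 hs.1
    norm_num
    exact h1

/-- THE CORRELATION on layers -/
theorem corr_bw {g : Finset (Fin 13) → ℕ} {i j b K : ℕ}
    (hg : ∀ s ⊆ R11, s.card ≠ i + j → g s = 0) (hb : ∀ s ⊆ R11, g s ≤ b)
    (hK : ∀ c ∈ L 11 j, c ≤ K) (hlen : Nat.choose 11 j * b < 256) :
    corr K (cC K (L 11 j)) (bw g) &&& lay 255 i = bw fun s => if s.card = i then
      ∑ t ∈ (R11.powersetCard j).filter (Disjoint s), g (s ∪ t) else 0 := by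
  have h1 : bw g = pk 8 2048 (fun m => if m < 2048 then g (ofMask m) else 0) :=
    pk_congr fun m hm => (if_pos hm).symm
  have hlen' : (L 11 j).length * b < 256 := by
    rw [length_L]
    exact hlen
  have h2 := corr_pk (N := 2048) (K := K) (b := b)
    (a := fun m => if m < 2048 then g (ofMask m) else 0)
    (fun i hi => if_neg (by omega)) (fun i => by
      show (if i < 2048 then g (ofMask i) else 0) ≤ b
      split_ifs with hi
      · exact hb _ (ofMask_subset_R11 hi)
      · exact Nat.zero_le _) hK hlen'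
  rw [h1, h2]
  have h3 : pk 8 2048 (fun m => ((L 11 j).map fun c =>
      if m + c < 2048 then g (ofMask (m + c)) else 0).sum) =
      bw (fun s => ((L 11 j).map fun c =>
        if mk s + c < 2048 then g (ofMask (mk s + c)) else 0).sum) := by
    refine pk_congr fun m hm => ?_
    have e : mk (ofMask m) = m := mk_ofMask (lt_trans hm (by norm_num))
    simp only [e]
  have hlt : ∀ s : Finset (Fin 13), ((L 11 j).map fun c =>
      if mk s + c < 2048 then g (ofMask (mk s + c)) else 0).sum < 256 := by
    intro s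
    refine lt_of_le_of_lt (sum_map_le _ _ (b := b) fun c _ => ?_) hlen'
    split_ifs with hi
    · exact hb _ (ofMask_subset_R11 hi)
    · exact Nat.zero_le _
  show pk 8 2048 (fun m => ((L 11 j).map fun c =>
      if m + c < 2048 then g (ofMask (m + c)) else 0).sum) &&& lay 255 i = _
  rw [h3, bw_land_lay (fun s _ => hlt s)]
  refine bw_congr fun s hs => ?_
  by_cases hc : s.card = i
  · rw [if_pos hc, if_pos hc, sum_filter]
    have h4 := sum_L11 j (fun t => if Disjoint s t then g (s ∪ t) else 0)
    refine Eq.trans ?_ h4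
    refine congrArg List.sum ?_
    refine List.map_congr_left fun c hcL => ?_
    have hcL' := (mem_L (n := 11) (by norm_num)).1 hcL
    have hc1 : c < 2048 := hcL'.1
    have hs1 := mk_lt_R11.2 hs
    have h13 : mk s + c < 2 ^ 13 := by
      rw [show (2 : ℕ) ^ 13 = 8192 by norm_num]
      omega
    have h5 := card_ofMask_add_eq h13
    rw [ofMask_mk, hc, hcL'.2] at h5
    by_cases hd : Disjoint s (ofMask c)
    · rw [if_pos hd]
      have h6 := ofMask_add_of_disjoint h13 (by rw [ofMask_mk]; exact hd)
      rw [ofMask_mk] at h6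
      have h7 : mk s + c < 2048 := by
        rw [← mk_ofMask h13, h6, mk_lt_R11]
        exact union_subset hs (ofMask_subset_R11 hc1)
      rw [if_pos h7, h6]
    · rw [if_neg hd]
      split_ifs with hi
      · exact hg _ (ofMask_subset_R11 hi) fun h8 => hd (h5.1 h8)
      · rfl
  · rw [if_neg hc, if_neg hc]

/-- the case of one point -/
theorem sum_disj_one {s : Finset (Fin 13)} (f : Finset (Fin 13) → ℕ) :
    ∑ t ∈ (R11.powersetCard 1).filter (Disjoint s), f (s ∪ t) =
      ∑ v ∈ R11 \ s, f (insert v s) := by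
  refine (sum_bij (fun v _ => {v}) ?_ ?_ ?_ ?_).symm
  · intro v hv
    rw [mem_sdiff] at hv
    rw [mem_filter, mem_powersetCard, singleton_subset_iff, card_singleton,
      disjoint_singleton_right]
    exact ⟨⟨hv.1, rfl⟩, hv.2⟩
  · intro a _ b _ hab
    exact singleton_injective hab
  · intro t ht
    rw [mem_filter, mem_powersetCard, card_eq_one] at ht
    obtain ⟨⟨h1, v, rfl⟩, h2⟩ := ht
    refine ⟨v, ?_, rfl⟩
    rw [singleton_subset_iff] at h1
    rw [disjoint_singleton_right] at h2
    exact mem_sdiff.2 ⟨h1, h2⟩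
  · intro v _
    congr 1
    ext a
    rw [mem_insert, mem_union, mem_singleton]
    exact or_comm

end Pool.Agent.Helper33.TY
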