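import Pool.Agent.Helper33.TY.PK
import Pool.Agent.Helper97.CV.Kill11Sound

/-!
MP_8ee768_co, project TH-Y', stages S, T: the bridge from the pair word to the kill test of the
frame `{11, 12}`.

`uM, vM, pM, aM, lM` are the data functions of `Kill11`; their packed words are masks of the pair
word; `ok_pair` and `sound_pair` hold for every odd cover with at most 157 blocks.
-/

set_option autoImplicit false
set_option exponentiation.threshold 20000

namespace Pool.Agent.Helper33.TY

open Finset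
open Pool.Agent.Helper89.CV (OddCover ofMask)
open Pool.Agent.Helper97.CV Pool.Agent.Helper79.CV Pool.Agent.Helper33.CV
open Pool.Agent.Helper63.SIMD
open Pool.Agent.Helper25.TY (R11 mem_R11 Lam_ge)

/-! ## bounds of the excesses -/

/-- the row of `z` is at least `3 * mm B z w - 3` -/
theorem three_mm_le {B : Finset (Finset (Fin 13))} (hB : OddCover B) {z w : Fin 13}
    (hzw : z ≠ w) : 3 * mm B z w ≤ MM B z + 3 := by
  have h1 := LamW_rec (ex B) {z, w}
  have h2 : LamW (ex B) {z, w} = 1 + 3 * mm B z w := Lam_pair hB hzw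
  rw [h2, card_pair hzw] at h1
  have h3 : ∀ v ∈ ({z, w} : Finset (Fin 13))ᶜ, LamW (ex B) (insert v {z, w}) ≤
      1 + 3 * mm B z v := by
    intro v hv
    rw [mem_compl, mem_insert, mem_singleton, not_or] at hv
    rw [← Lam_pair hB (fun h => hv.1 h.symm)]
    unfold Lam LamW
    refine sum_le_sum_of_subset fun q hq => ?_
    rw [mem_filter] at hq ⊢
    refine ⟨hq.1, (insert_subset_iff.2 ⟨?_, ?_⟩).trans hq.2⟩
    · rw [mem_insert, mem_insert]
      exact Or.inr (Or.inl rfl)
    · rw [singleton_subset_iff]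
      exact mem_insert_self _ _
  have h4 := sum_le_sum h3
  have h5 : ∑ v ∈ ({z, w} : Finset (Fin 13))ᶜ, (1 + 3 * mm B z v) + 3 * mm B z w =
      11 + 3 * MM B z := by
    rw [sum_add_distrib, sum_const, card_compl13 (card_pair hzw), ← mul_sum]
    unfold MM
    have h6 : ({z} : Finset (Fin 13))ᶜ = insert w ({z, w} : Finset (Fin 13))ᶜ := by
      ext v
      simp only [mem_compl, mem_insert, mem_singleton]
      constructor
      · intro h
        by_cases hw : v = w
        · exact Or.inl hw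
        · exact Or.inr (not_or.2 ⟨h, hw⟩)
      · rintro (h | h)
        · rw [h]
          exact hzw.symm
        · exact (not_or.1 h).1
    rw [h6, sum_insert (by simp)]
    simp only [smul_eq_mul]
    omega
  omega

theorem mm_le_15 {B : Finset (Finset (Fin 13))} (hB : OddCover B) (h157 : B.card ≤ 157)
    {z w : Fin 13} (hzw : z ≠ w) : mm B z w ≤ 15 := by
  have h1 := three_mm_le hB hzw
  have h2 := three_mm_le hB hzw.symm
  rw [mm_comm B w z] at h2
  have h3 := sum_MM_le hB h157
  have h4 : MM B z + MM B w ≤ ∑ u, MM B u := by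
    rw [← sum_pair hzw]
    exact sum_le_sum_of_subset (subset_univ _)
  omega

theorem P1_le_46 {B : Finset (Finset (Fin 13))} (hB : OddCover B) (h157 : B.card ≤ 157)
    {s : Finset (Fin 13)} (hs : s.card = 2) : P1 B s ≤ 46 := by
  obtain ⟨z, w, hzw, rfl⟩ := card_eq_two.1 hs
  have h1 := mm_le_15 hB h157 hzw
  have h2 := Lam_pair hB hzw
  have h3 : P1 B {z, w} ≤ Lam B {z, w} := by
    unfold P1 Lam LamW
    refine sum_le_sum_of_subset fun q hq => ?_
    rw [mem_filter] at hq ⊢
    exact ⟨hq.1, hq.2.1⟩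
  omega

theorem hrow_le {B : Finset (Finset (Fin 13))} (hB : OddCover B) (h157 : B.card ≤ 157)
    {u : Fin 13} (hu : u.val < 11) : mm B 12 u + mm B 11 u ≤ 30 := by
  have h1 : (12 : Fin 13) ≠ u := by
    rintro rfl
    exact absurd hu (by decide)
  have h2 : (11 : Fin 13) ≠ u := by
    rintro rfl
    exact absurd hu (by decide)
  have := mm_le_15 hB h157 h1
  have := mm_le_15 hB h157 h2
  omega

/-! ## the data functions -/

/-- a function of sets as function of masks -/
def mkF (g : Finset (Fin 13) → ℕ) (r : ℕ) : ℕ := if r < 2048 then g (ofMask r) else 0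

theorem pk_mkF (g : Finset (Fin 13) → ℕ) : pk 8 2048 (mkF g) = bw g :=
  pk_congr fun _ hr => if_pos hr

/-- the functions -/
def uS (B : Finset (Finset (Fin 13))) (s : Finset (Fin 13)) : ℕ :=
  if s.card = 4 then ind (link B 12) s else 0
def vS (B : Finset (Finset (Fin 13))) (s : Finset (Fin 13)) : ℕ :=
  if s.card = 4 then ind (link B 11) s else 0
def pS (B : Finset (Finset (Fin 13))) (s : Finset (Fin 13)) : ℕ :=
  if s.card = 2 then P1 B s else 0
def aS (B : Finset (Finset (Fin 13))) (s : Finset (Fin 13)) : ℕ :=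
  if s.card = 1 then ∑ u ∈ s, (mm B 12 u + mm B 11 u) + 1 else 0
/-- lower bounds of the outside points -/
def lS (l : Finset (Fin 13) → ℕ) (s : Finset (Fin 13)) : ℕ := if s.card = 1 then l s else 0

theorem mem_P1_iff {r : ℕ} : r ∈ Kill11.P1 ↔ r < 2048 ∧ (ofMask r).card = 1 := by
  unfold Kill11.P1
  rw [List.mem_toFinset, mem_L (by norm_num)]
  constructor
  · exact fun h => ⟨h.1, h.2⟩
  · exact fun h => ⟨h.1, h.2⟩

theorem mem_P2_iff {r : ℕ} : r ∈ Kill11.P2 ↔ r < 2048 ∧ (ofMask r).card = 2 := by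
  unfold Kill11.P2
  rw [List.mem_toFinset, mem_L (by norm_num)]
  constructor
  · exact fun h => ⟨h.1, h.2⟩
  · exact fun h => ⟨h.1, h.2⟩

theorem ok_pair {B : Finset (Finset (Fin 13))} (hB : OddCover B) (h157 : B.card ≤ 157)
    {l : Finset (Fin 13) → ℕ} (hl : ∀ s, l s ≤ 127) :
    Kill11.Ok (mkF (uS B)) (mkF (vS B)) (mkF (pS B)) (mkF (aS B)) (mkF (lS l)) where
  u1 := by
    intro r
    unfold mkF uS
    split_ifs
    · exact ind_le _ _
    · exact Nat.zero_le _
    · exact Nat.zero_le _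
  v1 := by
    intro r
    unfold mkF vS
    split_ifs
    · exact ind_le _ _
    · exact Nat.zero_le _
    · exact Nat.zero_le _
  p1 := by
    intro r
    unfold mkF pS
    split_ifs with h1 h2
    · have := P1_le_46 hB h157 h2
      omega
    · exact Nat.zero_le _
    · exact Nat.zero_le _
  a1 := by
    intro r
    unfold mkF aS
    split_ifs with h1 h2
    · obtain ⟨u, hu⟩ := card_eq_one.1 h2
      rw [hu, sum_singleton]
      have h3 : u ∈ ofMask r := by
        rw [hu]
        exact mem_singleton_self u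
      have := hrow_le hB h157 (mem_R11.1 (ofMask_subset_R11 h1 h3))
      omega
    · exact Nat.zero_le _
    · exact Nat.zero_le _
  l1 := by
    intro r
    unfold mkF lS
    split_ifs
    · exact hl _
    · exact Nat.zero_le _
    · exact Nat.zero_le _
  l0 := by
    intro r hr
    unfold mkF lS
    split_ifs with h1 h2
    · exact absurd (mem_P1_iff.2 ⟨h1, h2⟩) hr
    · rfl
    · rfl

theorem ofMask_two_pow (z : Fin 13) : ofMask (2 ^ z.val) = {z} := by
  have h := ofMask_add (m := 0) z (Nat.two_pow_pos _)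
  rw [Nat.zero_add, ofMask_zero] at h
  rw [h, insert_empty]

theorem ofMask_pair {z w : Fin 13} (h : z ≠ w) :
    ofMask (2 ^ z.val + 2 ^ w.val) = {z, w} := by
  rcases lt_or_gt_of_ne (fun h1 => h (Fin.ext h1) : z.val ≠ w.val) with h1 | h1
  · rw [ofMask_add w (Nat.pow_lt_pow_right (by norm_num) h1), ofMask_two_pow, pair_comm]
  · rw [Nat.add_comm, ofMask_add z (Nat.pow_lt_pow_right (by norm_num) h1), ofMask_two_pow]

theorem sum_lt_11 {z w : Fin 13} (hz : z.val < 11) (hw : w.val < 11) (h : z ≠ w) :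
    2 ^ z.val + 2 ^ w.val < 2048 := by
  have h1 : ofMask (2 ^ z.val + 2 ^ w.val) ⊆ R11 := by
    rw [ofMask_pair h]
    intro a ha
    rw [mem_insert, mem_singleton] at ha
    rw [mem_R11]
    rcases ha with rfl | rfl
    · exact hz
    · exact hw
  rw [← mk_lt_R11, mk_ofMask] at h1
  · exact h1
  · have e1 := Nat.pow_le_pow_right (show 0 < 2 by norm_num) (show z.val ≤ 10 by omega)
    have e2 := Nat.pow_le_pow_right (show 0 < 2 by norm_num) (show w.val ≤ 10 by omega)
    omega

/-- the common quads of the two links, counted by the kill test -/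
theorem common_le {B : Finset (Finset (Fin 13))} {z w : Fin 13} (hz : z.val < 11)
    (hw : w.val < 11) (hzw : z ≠ w) :
    ∑ q ∈ Kill11.P2, KillW.ext 2048 (fun s => mkF (uS B) s &&& mkF (vS B) s)
      (2 ^ z.val + 2 ^ w.val + q) ≤
      ((link B 12 ∩ link B 11).filter (fun s => {z, w} ⊆ s ∧ s.card = 4)).card := by
  have hr := sum_lt_11 hz hw hzw
  have hcr : (ofMask (2 ^ z.val + 2 ^ w.val)).card = 2 := by
    rw [ofMask_pair hzw, card_pair hzw]
  set r := 2 ^ z.val + 2 ^ w.val with hrd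
  -- the terms
  have hterm : ∀ q ∈ Kill11.P2, KillW.ext 2048 (fun s => mkF (uS B) s &&& mkF (vS B) s)
      (r + q) = if (r + q < 2048 ∧ (ofMask (r + q)).card = 4 ∧
        ofMask (r + q) ∈ link B 12 ∩ link B 11) then 1 else 0 := by
    intro q _
    unfold KillW.ext
    by_cases h1 : r + q < 2048
    · rw [if_pos h1]
      show mkF (uS B) (r + q) &&& mkF (vS B) (r + q) = _
      unfold mkF uS vS ind
      rw [if_pos h1, if_pos h1]
      by_cases h2 : (ofMask (r + q)).card = 4
      · rw [if_pos h2, if_pos h2]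
        by_cases h3 : ofMask (r + q) ∈ link B 12
        · rw [if_pos h3]
          by_cases h4 : ofMask (r + q) ∈ link B 11
          · rw [if_pos h4, if_pos ⟨h1, h2, mem_inter.2 ⟨h3, h4⟩⟩]
            rfl
          · rw [if_neg h4, if_neg (fun h => h4 (mem_inter.1 h.2.2).2)]
            rfl
        · rw [if_neg h3, Nat.zero_and, if_neg (fun h => h3 (mem_inter.1 h.2.2).1)]
      · rw [if_neg h2, if_neg h2, Nat.zero_and, if_neg (fun h => h2 h.2.1)]
    · rw [if_neg h1, if_neg (fun h => h1 h.1)]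
  rw [sum_congr rfl hterm, ← card_filter]
  refine card_le_card_of_injOn (fun q => ofMask (r + q)) ?_ ?_
  · intro q hq
    rw [mem_coe, mem_filter] at hq
    obtain ⟨hq1, h1, h2, h3⟩ := hq
    rw [mem_P2_iff] at hq1
    rw [mem_coe, mem_filter]
    refine ⟨h3, ?_, h2⟩
    have h4 := (card_ofMask_add_eq (a := r) (b := q) (by omega)).1 (by rw [h2, hcr, hq1.2])
    show {z, w} ⊆ ofMask (r + q)
    rw [ofMask_add_of_disjoint (by omega) h4, ← ofMask_pair hzw]
    exact subset_union_left
  · intro q hq q' hq' h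
    rw [mem_coe, mem_filter] at hq hq'
    have h1 := congrArg mk h
    simp only at h1
    rw [mk_ofMask (by omega), mk_ofMask (by omega)] at h1
    omega

theorem sound_pair {B : Finset (Finset (Fin 13))} (hB : OddCover B)
    {l : Finset (Fin 13) → ℕ} (hl : ∀ z : Fin 13, z.val < 11 → l {z} ≤ MM B z) :
    Kill11.Sound B (mkF (uS B)) (mkF (vS B)) (mkF (pS B)) (mkF (aS B)) (mkF (lS l)) where
  pair := by
    intro z w hz hw hzw
    have h1 := common_le (B := B) hz hw hzw
    have h2 : mkF (pS B) (2 ^ z.val + 2 ^ w.val) = P1 B {z, w} := by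
      unfold mkF pS
      rw [if_pos (sum_lt_11 hz hw hzw), ofMask_pair hzw, if_pos (card_pair hzw)]
    have h3 : Kill11.fF (mkF (uS B)) (mkF (vS B)) (mkF (pS B)) (2 ^ z.val + 2 ^ w.val) ≤
        Lam B {z, w} := by
      unfold Kill11.fF
      rw [if_pos (mem_P2_iff.2 ⟨sum_lt_11 hz hw hzw, by
        rw [ofMask_pair hzw, card_pair hzw]⟩), h2, Nat.add_comm]
      exact Lam_ge (le_refl _) h1
    have h4 := Lam_pair hB hzw
    omega
  off := by
    intro z hz
    have h1 : 2 ^ z.val < 2048 := by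
      have e1 := Nat.pow_le_pow_right (show 0 < 2 by norm_num) (show z.val ≤ 10 by omega)
      omega
    unfold mkF aS
    rw [if_pos h1, ofMask_two_pow, if_pos (card_singleton z), sum_singleton, mm_comm B 12 z,
      mm_comm B 11 z]
    omega
  low := by
    intro z hz
    have h1 : 2 ^ z.val < 2048 := by
      have e1 := Nat.pow_le_pow_right (show 0 < 2 by norm_num) (show z.val ≤ 10 by omega)
      omega
    unfold mkF lS
    rw [if_pos h1, ofMask_two_pow, if_pos (card_singleton z)]
    exact hl z hz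

/-! ## the words -/

/-- masking with a layer, any value -/
theorem bw_land_lay' {g : Finset (Fin 13) → ℕ} (hg : ∀ s ⊆ R11, g s < 256) {v : ℕ}
    (hv : v < 256) (i : ℕ) :
    bw g &&& lay v i = bw fun s => if s.card = i then g s &&& v else 0 := by
  unfold lay
  rw [bw_land' hg (fun s _ => by split_ifs <;> omega)]
  refine bw_congr fun s _ => ?_
  split_ifs
  · rfl
  · exact Nat.and_zero _

/-- the fields are bytes -/
theorem qf_lt256 {B : Finset (Finset (Fin 13))} (hB : OddCover B) (h157 : B.card ≤ 157)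
    {f : Finset (Fin 13) → ℕ} (hf : ∀ s, f s ≤ 1) {s : Finset (Fin 13)} (hs : s ⊆ R11) :
    qf B f s < 256 := by
  unfold qf
  by_cases h4 : s.card = 4
  · rw [if_pos h4]
    split_ifs <;> omega
  rw [if_neg h4]
  by_cases h3 : s.card = 3
  · rw [if_pos h3]
    split_ifs <;> omega
  rw [if_neg h3]
  by_cases h2 : s.card = 2
  · rw [if_pos h2]
    have := P1_le_46 hB h157 h2
    omega
  rw [if_neg h2]
  by_cases h1 : s.card = 1
  · rw [if_pos h1]
    obtain ⟨u, rfl⟩ := card_eq_one.1 h1
    rw [sum_singleton]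
    have := hrow_le hB h157 (mem_R11.1 (singleton_subset_iff.1 hs))
    have := hf {u}
    omega
  · rw [if_neg h1]
    omega

theorem land_63 {x y : ℕ} (hx : x < 64) (hy : y ≤ 1) :
    (x + 64 * y) &&& 63 = x ∧ (x + 64 * y) &&& 64 = 64 * y := by
  constructor
  · rw [show (63 : ℕ) = 2 ^ 6 - 1 by norm_num, Nat.and_two_pow_sub_one_eq_mod]
    omega
  · have h := land_cons (W := 6) (x := y) (y := 1) (p := x) (q := 0) hx (by norm_num)
    rw [Nat.and_zero, Nat.and_one_is_mod] at h
    have e1 : 2 ^ 6 * y + x = x + 64 * y := by omega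
    have e2 : 2 ^ 6 * 1 + 0 = 64 := by norm_num
    rw [e1, e2] at h
    rw [h]
    omega

section words

variable {B : Finset (Finset (Fin 13))} {f : Finset (Fin 13) → ℕ}

theorem word_u (hB : OddCover B) (h157 : B.card ≤ 157) (hf : ∀ s, f s ≤ 1) :
    bw (qf B f) &&& m1_4 = bw (uS B) := by
  rw [m1_4_eq, bw_land_lay' (fun s hs => qf_lt256 hB h157 hf hs) (by norm_num)]
  refine bw_congr fun s hs => ?_
  unfold uS qf ind
  by_cases h4 : s.card = 4
  · rw [if_pos h4, if_pos h4, if_pos h4, Nat.and_one_is_mod]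
    split_ifs <;> rfl
  · rw [if_neg h4, if_neg h4]

theorem word_v (hB : OddCover B) (h157 : B.card ≤ 157) (hf : ∀ s, f s ≤ 1) :
    (bw (qf B f) >>> 1) &&& m1_4 = bw (vS B) := by
  have h1 : m1_4 = lay 127 4 &&& m1_4 := by
    rw [m1_4_eq]
    unfold lay
    rw [bw_land' (fun s _ => by split_ifs <;> norm_num) (fun s _ => by split_ifs <;> norm_num)]
    refine bw_congr fun s _ => ?_
    split_ifs <;> rfl
  rw [h1, ← Nat.land_assoc, bw_half (fun s hs => qf_lt256 hB h157 hf hs), m1_4_eq,
    bw_land_lay' _ (by norm_num)]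
  · refine bw_congr fun s hs => ?_
    unfold vS qf ind
    by_cases h4 : s.card = 4
    · rw [if_pos h4, if_pos h4, if_pos h4, if_pos h4, Nat.and_one_is_mod]
      split_ifs <;> rfl
    · rw [if_neg h4, if_neg h4]
  · intro s hs
    have := qf_lt256 hB h157 hf hs
    split_ifs <;> omega

theorem word_p (hB : OddCover B) (h157 : B.card ≤ 157) (hf : ∀ s, f s ≤ 1) :
    bw (qf B f) &&& m255_2 = bw (pS B) := by
  rw [m255_2_eq, bw_land_lay (fun s hs => qf_lt256 hB h157 hf hs)]
  refine bw_congr fun s hs => ?_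
  unfold pS qf
  by_cases h2 : s.card = 2
  · rw [if_pos h2, if_pos h2, if_neg (by omega), if_neg (by omega), if_pos h2]
  · rw [if_neg h2, if_neg h2]

theorem word_a (hB : OddCover B) (h157 : B.card ≤ 157) (hf : ∀ s, f s ≤ 1) :
    (bw (qf B f) &&& m63_1) + m1_1 = bw (aS B) := by
  rw [m63_1_eq, m1_1_eq, bw_land_lay' (fun s hs => qf_lt256 hB h157 hf hs) (by norm_num)]
  unfold lay
  rw [bw_add]
  refine bw_congr fun s hs => ?_
  unfold aS qf
  by_cases h1 : s.card = 1
  · rw [if_pos h1, if_pos h1, if_pos h1, if_neg (by omega), if_neg (by omega),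
      if_neg (by omega), if_pos h1]
    obtain ⟨u, rfl⟩ := card_eq_one.1 h1
    rw [sum_singleton]
    have := hrow_le hB h157 (mem_R11.1 (singleton_subset_iff.1 hs))
    rw [(land_63 (by omega) (hf {u})).1]
  · rw [if_neg h1, if_neg h1, if_neg h1]

theorem shr5_bw (h : Finset (Fin 13) → ℕ) : bw (fun s => 32 * h s) >>> 5 = bw h := by
  rw [← bw_mul, Nat.shiftRight_eq_div_pow]
  exact Nat.mul_div_cancel_left _ (by norm_num)

theorem word_f (hB : OddCover B) (h157 : B.card ≤ 157) (hf : ∀ s, f s ≤ 1) :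
    (bw (qf B f) &&& m64_1) >>> 5 = bw fun s => if s.card = 1 then 2 * f s else 0 := by
  rw [m64_1_eq, bw_land_lay' (fun s hs => qf_lt256 hB h157 hf hs) (by norm_num),
    ← shr5_bw (fun s => if s.card = 1 then 2 * f s else 0)]
  refine congrArg (fun t => t >>> 5) (bw_congr fun s hs => ?_)
  by_cases h1 : s.card = 1
  · rw [if_pos h1, if_pos h1]
    unfold qf
    rw [if_neg (by omega), if_neg (by omega), if_neg (by omega), if_pos h1]
    obtain ⟨u, rfl⟩ := card_eq_one.1 h1
    rw [sum_singleton]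
    have := hrow_le hB h157 (mem_R11.1 (singleton_subset_iff.1 hs))
    rw [(land_63 (by omega) (hf {u})).2]
    omega
  · rw [if_neg h1, if_neg h1]

theorem word_l (hB : OddCover B) (h157 : B.card ≤ 157) (hf : ∀ s, f s ≤ 1) :
    m6_1 + ((bw (qf B f) &&& m64_1) >>> 5) = bw (lS fun s => 6 + 2 * f s) := by
  rw [word_f hB h157 hf, m6_1_eq]
  unfold lay
  rw [bw_add]
  refine bw_congr fun s _ => ?_
  unfold lS
  split_ifs
  · rfl
  · rfl

theorem word_ls {l : Finset (Fin 13) → ℕ} (hl : ∀ s, l s ≤ 127) :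
    m128_1 - bw (lS l) = pk 8 2048 (fun r => Kill11.onS Kill11.P1 128 r - mkF (lS l) r) := by
  rw [m128_1_eq]
  unfold lay
  rw [bw_sub' fun s _ => ?_]
  · unfold bw
    refine pk_congr fun r hr => ?_
    unfold Kill11.onS mkF
    rw [if_pos hr]
    show (if (ofMask r).card = 1 then 128 else 0) - lS l (ofMask r) = _
    by_cases h1 : (ofMask r).card = 1
    · rw [if_pos h1, if_pos (mem_P1_iff.2 ⟨hr, h1⟩)]
    · rw [if_neg h1, if_neg (fun h => h1 (mem_P1_iff.1 h).2)]
  · unfold lS
    split_ifs with h1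
    · exact (hl s).trans (by norm_num)
    · exact le_refl _

end words

/-- lower bounds from the flags: `6` and `8` -/
def lQ (Q : ℕ) : ℕ := m6_1 + ((Q &&& m64_1) >>> 5)

/-- **the kill test on the pair word**: all data of `kill1` from `Q` -/
def pkill (T Q : ℕ) : Bool :=
  Kill11.kill1 Kill11.kC2 (Kill11.kM2 1) (Kill11.kT 1 2) (Kill11.kT 1 5) (Kill11.kT 1 8)
    (Kill11.kO2 1) Kill11.kC1 (Kill11.kM1 1) (Kill11.kH 1) (Kill11.kEv 1) T
    (Q &&& m1_4) ((Q >>> 1) &&& m1_4) (Q &&& m255_2) ((Q &&& m63_1) + m1_1)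
    (m128_1 - lQ Q) (lQ Q)

/-- the data of a pair word with `6 <= MM` outside -/
theorem pw_data {B : Finset (Finset (Fin 13))} (hB : OddCover B) (h157 : B.card ≤ 157)
    (h6 : ∀ z : Fin 13, z.val < 11 → 6 ≤ MM B z) {Q : ℕ} (hQ : PW B Q) :
    ∃ l : Finset (Fin 13) → ℕ, (∀ s, l s ≤ 8) ∧ (∀ z : Fin 13, z.val < 11 → l {z} ≤ MM B z) ∧
      Q &&& m1_4 = pk 8 2048 (mkF (uS B)) ∧ (Q >>> 1) &&& m1_4 = pk 8 2048 (mkF (vS B)) ∧
      Q &&& m255_2 = pk 8 2048 (mkF (pS B)) ∧
      (Q &&& m63_1) + m1_1 = pk 8 2048 (mkF (aS B)) ∧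
      lQ Q = pk 8 2048 (mkF (lS l)) ∧
      m128_1 - lQ Q = pk 8 2048 (fun r => Kill11.onS Kill11.P1 128 r - mkF (lS l) r) := by
  unfold PW at hQ
  obtain ⟨f, hQf, hf, h8⟩ := hQ
  rw [hQf]
  have hl : ∀ s : Finset (Fin 13), 6 + 2 * f s ≤ 8 := fun s => by
    have := hf s
    omega
  refine ⟨fun s => 6 + 2 * f s, hl, ?_, ?_, ?_, ?_, ?_, ?_, ?_⟩
  · intro z hz
    have h1 := h6 z hz
    have h2 := h8 z hz
    have h3 := hf {z}
    show 6 + 2 * f {z} ≤ MM B z
    omega
  · rw [pk_mkF]
    exact word_u hB h157 hf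
  · rw [pk_mkF]
    exact word_v hB h157 hf
  · rw [pk_mkF]
    exact word_p hB h157 hf
  · rw [pk_mkF]
    exact word_a hB h157 hf
  · unfold lQ
    rw [pk_mkF]
    exact word_l hB h157 hf
  · unfold lQ
    rw [word_l hB h157 hf]
    exact word_ls fun s => (hl s).trans (by norm_num)

/-- **soundness of the kill test on the pair word** -/
theorem pkill_sound {B : Finset (Finset (Fin 13))} (hB : OddCover B) (h157 : B.card ≤ 157)
    (h6 : ∀ z : Fin 13, z.val < 11 → 6 ≤ MM B z) {Q : ℕ} (hQ : PW B Q) {T : ℕ}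
    (hT : 88 < T + (MM B 11 + MM B 12)) : pkill T Q = false := by
  obtain ⟨l, hl8, hl, e1, e2, e3, e4, e5, e6⟩ := pw_data hB h157 h6 hQ
  unfold pkill
  rw [e1, e2, e3, e4, e6, e5]
  exact Kill11.kill1_sound hB h157 (ok_pair hB h157 fun s => (hl8 s).trans (by norm_num))
    (sound_pair hB hl) hT

end Pool.Agent.Helper33.TY
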