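import Pool.Agent.Helper33.TY.Layer

/-!
MP_8ee768_co, project TH-Y', stage S: the pair word.

`K = {11, 12}`, eleven outside points. The word of a cover has 2048 fields of 8 bits, field = mask
`s` of a subset of the outside points:
* size 4: bit 0 = `s ∈ link B 12`, bit 1 = `s ∈ link B 11`;
* size 3: `s ∪ {11, 12} ∈ B`;
* size 2: exact sum of `ex B q` over the quads `q ⊇ s` which meet `K`;
* size 1: `mm B 12 u + mm B 11 u`, and bit 6 = flag that `8 ≤ MM B u` is known.
`pairQ` computes it from the words of the two halves.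
-/

set_option autoImplicit false

namespace Pool.Agent.Helper33.TY

open Finset
open Pool.Agent.Helper89.CV (OddCover ofMask)
open Pool.Agent.Helper97.CV Pool.Agent.Helper79.CV Pool.Agent.Helper33.CV
open Pool.Agent.Helper63.SIMD
open Pool.Agent.Helper25.TY (R11 mem_R11)

/-- exact excess of the quads which contain `s` and meet `{11, 12}` -/
def P1 (B : Finset (Finset (Fin 13))) (s : Finset (Fin 13)) : ℕ :=
  ∑ q ∈ quads.filter (fun q => s ⊆ q ∧ (12 ∈ q ∨ 11 ∈ q)), ex B q

/-- the fields of the pair word -/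
def qf (B : Finset (Finset (Fin 13))) (f : Finset (Fin 13) → ℕ) (s : Finset (Fin 13)) : ℕ :=
  if s.card = 4 then (if s ∈ link B 12 then 1 else 0) + (if s ∈ link B 11 then 2 else 0)
  else if s.card = 3 then (if s ∈ link (link B 12) 11 then 1 else 0)
  else if s.card = 2 then P1 B s
  else if s.card = 1 then (∑ u ∈ s, (mm B 12 u + mm B 11 u)) + 64 * f s
  else 0

/-- `Q` is the pair word of `B` with some valid flags -/
def PW (B : Finset (Finset (Fin 13))) (Q : ℕ) : Prop :=
  ∃ f : Finset (Fin 13) → ℕ, Q = bw (qf B f) ∧ (∀ s, f s ≤ 1) ∧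
    ∀ u : Fin 13, u.val < 11 → f {u} = 1 → 8 ≤ MM B u

/-- characteristic function of a family -/
def ind (F : Finset (Finset (Fin 13))) (s : Finset (Fin 13)) : ℕ := if s ∈ F then 1 else 0

theorem ind_le (F : Finset (Finset (Fin 13))) (s : Finset (Fin 13)) : ind F s ≤ 1 := by
  unfold ind
  split_ifs <;> omega

/-- a family of `k`-subsets of the eleven points -/
def Fam (k : ℕ) (F : Finset (Finset (Fin 13))) : Prop := ∀ b ∈ F, b ⊆ R11 ∧ b.card = k

theorem Fam.ind_zero {k : ℕ} {F : Finset (Finset (Fin 13))} (h : Fam k F)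
    {s : Finset (Fin 13)} (hs : s.card ≠ k) : ind F s = 0 := by
  unfold ind
  exact if_neg fun h1 => hs (h s h1).2

/-- counting members containing `s` by their other points -/
theorem sup_count {i j : ℕ} {F : Finset (Finset (Fin 13))} (hF : Fam (i + j) F)
    {s : Finset (Fin 13)} (hi : s.card = i) :
    ∑ t ∈ (R11.powersetCard j).filter (Disjoint s), ind F (s ∪ t) = cnt F s := by
  unfold ind cnt
  rw [← card_filter]
  refine card_bij' (fun t _ => s ∪ t) (fun b _ => b \ s) ?_ ?_ ?_ ?_
  · intro t ht
    rw [mem_filter] at ht ⊢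
    exact ⟨ht.2, subset_union_left⟩
  · intro b hb
    rw [mem_filter] at hb
    have h1 := hF b hb.1
    rw [mem_filter, mem_filter, mem_powersetCard, union_sdiff_of_subset hb.2]
    refine ⟨⟨⟨sdiff_subset.trans h1.1, ?_⟩, disjoint_sdiff⟩, hb.1⟩
    rw [card_sdiff_of_subset hb.2, h1.2, hi]
    omega
  · intro t ht
    rw [mem_filter, mem_filter] at ht
    rw [union_sdiff_cancel_left ht.1.2]
  · intro b hb
    rw [mem_filter] at hb
    exact union_sdiff_of_subset hb.2

theorem cnt_same {k : ℕ} {F : Finset (Finset (Fin 13))} (hF : Fam k F)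
    {s : Finset (Fin 13)} (hs : s.card = k) : cnt F s = ind F s := by
  have h := sup_count (i := k) (j := 0) (by rw [Nat.add_zero]; exact hF) hs
  rw [← h, powersetCard_zero, filter_singleton, if_pos (disjoint_empty_right s),
    sum_singleton, union_empty]

theorem cnt_le_choose {i j : ℕ} {F : Finset (Finset (Fin 13))} (hF : Fam (i + j) F)
    {s : Finset (Fin 13)} (hi : s.card = i) : cnt F s ≤ Nat.choose 11 j := by
  rw [← sup_count hF hi]
  refine (sum_le_sum fun t _ => ind_le F _).trans ?_
  rw [← card_eq_sum_ones]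
  refine (card_filter_le _ _).trans ?_
  rw [card_powersetCard]
  exact le_of_eq (congrArg (fun t => Nat.choose t j) (by decide : R11.card = 11))

/-! ## one half -/

/-- members of the link by the other special point -/
theorem cnt_split_special (D : Finset (Finset (Fin 13))) {p' : Fin 13} {s : Finset (Fin 13)}
    (hs : p' ∉ s) :
    cnt D s = cnt (D.filter fun b => p' ∉ b) s + cnt (link D p') s := by
  rw [cnt_link D hs]
  unfold cnt
  rw [← card_filter_add_card_filter_not (s := D.filter fun b => s ⊆ b) (fun b => p' ∉ b)]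
  congr 1
  · congr 1
    ext b
    simp only [mem_filter]
    tauto
  · congr 1
    ext b
    simp only [mem_filter, insert_subset_iff, not_not]
    tauto

/-- the outer part of a link -/
def outer (B : Finset (Finset (Fin 13))) (p p' : Fin 13) : Finset (Finset (Fin 13)) :=
  (link B p).filter fun b => p' ∉ b

/-- `p, p'` are the two special points -/
def Spec (p p' : Fin 13) : Prop := (p = 12 ∧ p' = 11) ∨ (p = 11 ∧ p' = 12)

theorem Spec.ne {p p' : Fin 13} (h : Spec p p') : p ≠ p' := by
  rcases h with ⟨rfl, rfl⟩ | ⟨rfl, rfl⟩ <;> decide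

theorem Spec.symm {p p' : Fin 13} (h : Spec p p') : Spec p' p := by
  rcases h with ⟨rfl, rfl⟩ | ⟨rfl, rfl⟩
  · exact Or.inr ⟨rfl, rfl⟩
  · exact Or.inl ⟨rfl, rfl⟩

theorem Spec.notMem {p p' : Fin 13} (h : Spec p p') {s : Finset (Fin 13)} (hs : s ⊆ R11) :
    p ∉ s := by
  intro h1
  have h2 := mem_R11.1 (hs h1)
  rcases h with ⟨rfl, rfl⟩ | ⟨rfl, rfl⟩
  · exact absurd h2 (by decide)
  · exact absurd h2 (by decide)

theorem Spec.mem {p p' : Fin 13} (h : Spec p p') {a : Fin 13} (h1 : a ≠ p) (h2 : a ≠ p') :
    a ∈ R11 := by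
  rw [mem_R11]
  have h3 : ∀ a : Fin 13, a ≠ 12 → a ≠ 11 → a.val < 11 := by decide
  rcases h with ⟨rfl, rfl⟩ | ⟨rfl, rfl⟩
  · exact h3 a h1 h2
  · exact h3 a h2 h1

theorem fam_outer {B : Finset (Finset (Fin 13))} (hB : OddCover B) {p p' : Fin 13}
    (h : Spec p p') : Fam 4 (outer B p p') := by
  intro b hb
  unfold outer at hb
  rw [mem_filter, mem_link] at hb
  constructor
  · intro a ha
    exact h.mem (fun h1 => hb.1.1 (h1 ▸ ha)) (fun h1 => hb.2 (h1 ▸ ha))
  · have h1 := hB.1 _ hb.1.2
    rw [card_insert_of_notMem hb.1.1] at h1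
    omega

theorem fam_common {B : Finset (Finset (Fin 13))} (hB : OddCover B) {p p' : Fin 13}
    (h : Spec p p') : Fam 3 (link (link B p) p') := by
  intro b hb
  rw [mem_link, mem_link] at hb
  have h2 : p ∉ b := fun h3 => hb.2.1 (mem_insert_of_mem h3)
  constructor
  · intro a ha
    exact h.mem (fun h1 => h2 (h1 ▸ ha)) (fun h1 => hb.1 (h1 ▸ ha))
  · have h1 := hB.1 _ hb.2.2
    rw [card_insert_of_notMem hb.2.1, card_insert_of_notMem hb.1] at h1
    omega

/-- covering numbers of the sets through `p` -/
theorem cnt_insert_spec {B : Finset (Finset (Fin 13))} {p p' : Fin 13} (h : Spec p p')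
    {s : Finset (Fin 13)} (hs : s ⊆ R11) :
    cnt B (insert p s) = cnt (outer B p p') s + cnt (link (link B p) p') s := by
  rw [← cnt_link B (h.notMem hs)]
  exact cnt_split_special (link B p) (h.symm.notMem hs)

/-- the excess part of a half -/
def hp2 (B : Finset (Finset (Fin 13))) (p p' : Fin 13) (s : Finset (Fin 13)) : ℕ :=
  ∑ q ∈ quads.filter (fun q => s ⊆ q ∧ p ∈ q ∧ p' ∉ q), ex B q

theorem hp2_eq {B : Finset (Finset (Fin 13))} {p p' : Fin 13} (h : Spec p p')
    {s : Finset (Fin 13)} (hs : s ⊆ R11) (h2 : s.card = 2) :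
    hp2 B p p' s = ∑ v ∈ R11 \ s, cnt B (insert p (insert v s)) / 2 := by
  unfold hp2
  refine (sum_bij (fun v _ => insert p (insert v s)) ?_ ?_ ?_ (fun v _ => rfl)).symm
  · intro v hv
    rw [mem_sdiff] at hv
    have h3 : insert v s ⊆ R11 := insert_subset hv.1 hs
    rw [mem_filter, mem_quads, card_insert_of_notMem (h.notMem h3),
      card_insert_of_notMem hv.2, h2]
    refine ⟨rfl, (subset_insert v s).trans (subset_insert p _), mem_insert_self p _, ?_⟩
    rw [mem_insert, not_or]
    exact ⟨h.ne.symm, h.symm.notMem h3⟩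
  · intro a ha b hb hab
    rw [mem_sdiff] at ha hb
    have h3 : insert a s = insert b s := by
      have h4 : (insert p (insert a s)).erase p = (insert p (insert b s)).erase p :=
        congrArg (fun t => t.erase p) hab
      rwa [erase_insert (h.notMem (insert_subset ha.1 hs)),
        erase_insert (h.notMem (insert_subset hb.1 hs))] at h4
    have h5 : a ∈ insert b s := h3 ▸ mem_insert_self a s
    rcases mem_insert.1 h5 with h6 | h6
    · exact h6
    · exact absurd h6 ha.2
  · intro q hq
    rw [mem_filter, mem_quads] at hq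
    obtain ⟨hq4, hsq, hpq, hpq'⟩ := hq
    have hps : p ∉ s := h.notMem hs
    have hsqe : s ⊆ q.erase p := by
      intro a ha
      rw [mem_erase]
      refine ⟨?_, hsq ha⟩
      rintro rfl
      exact hps ha
    have h3 : (q.erase p \ s).card = 1 := by
      rw [card_sdiff_of_subset hsqe, card_erase_of_mem hpq, hq4, h2]
    obtain ⟨v, hv⟩ := card_eq_one.1 h3
    have hv1 : v ∈ q.erase p \ s := by rw [hv]; exact mem_singleton_self v
    rw [mem_sdiff, mem_erase] at hv1
    refine ⟨v, ?_, ?_⟩
    · rw [mem_sdiff]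
      exact ⟨h.mem hv1.1.1 fun h4 => hpq' (h4 ▸ hv1.1.2), hv1.2⟩
    · have h5 : q.erase p = insert v s := by
        have h6 : q.erase p = (q.erase p \ s) ∪ s := (sdiff_union_of_subset hsqe).symm
        rw [h6, hv]
        rfl
      rw [← h5, insert_erase hpq]

/-- the row part of a half -/
def hp1 (B : Finset (Finset (Fin 13))) (p : Fin 13) (s : Finset (Fin 13)) : ℕ :=
  ∑ u ∈ s, mm B p u

theorem hp1_eq {B : Finset (Finset (Fin 13))} (hB : OddCover B) {p p' : Fin 13}
    (h : Spec p p') {s : Finset (Fin 13)} (hs : s ⊆ R11) (h1 : s.card = 1) :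
    19 + 2 * hp1 B p s = cnt (outer B p p') s + cnt (link (link B p) p') s := by
  obtain ⟨u, rfl⟩ := card_eq_one.1 h1
  have hu : p ≠ u := by
    intro h2
    exact h.notMem hs (by rw [h2]; exact mem_singleton_self u)
  rw [← cnt_insert_spec h hs]
  unfold hp1
  rw [sum_singleton]
  exact (cnt_pair hB hu).symm

/-- the fields of a half -/
def hf (B : Finset (Finset (Fin 13))) (p p' : Fin 13) (s : Finset (Fin 13)) : ℕ :=
  (if s.card = 2 then hp2 B p p' s else 0) + (if s.card = 1 then hp1 B p s else 0)

/-! ## the program -/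

/-- constants -/
def cC1 : ℕ := cC 1024 (L 11 1)
def cC2 : ℕ := cC 1536 (L 11 2)
def cC3 : ℕ := cC 1792 (L 11 3)

/-- degrees of the common part -/
def degW (T8 : ℕ) : ℕ := corr 1536 cC2 T8 &&& lay 255 1

/-- excess of the common part -/
def exW (T8 : ℕ) : ℕ := (corr 1024 cC1 T8 &&& lay 255 2) >>> 1 &&& lay 127 2

/-- pair excesses and rows of a half from the words of the common part and of the outer part -/
def halfW (T8 DT E8 : ℕ) : ℕ :=
  (corr 1024 cC1 (((corr 1024 cC1 E8 &&& lay 255 3) + T8) >>> 1 &&& lay 127 3) &&& lay 255 2) +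
    ((((corr 1792 cC3 E8 &&& lay 255 1) + DT) - lay 19 1) >>> 1 &&& lay 127 1)

/-- the pair word -/
def pairQ (T8 EX8 EY8 : ℕ) : ℕ :=
  EX8 + T8 + exW T8 + halfW T8 (degW T8) EX8 + (2 * EY8 + halfW T8 (degW T8) EY8)

theorem degW_eq {T : Finset (Finset (Fin 13))} (hT : Fam 3 T) :
    degW (bw (ind T)) = bw fun s => if s.card = 1 then cnt T s else 0 := by
  unfold degW cC2
  rw [corr_bw (i := 1) (j := 2) (b := 1) (fun s _ hs => hT.ind_zero hs) (fun s _ => ind_le T s)
    (by decide +kernel) (by decide)]
  refine bw_congr fun s _ => ?_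
  split_ifs with h
  · exact sup_count (i := 1) (j := 2) hT h
  · rfl

theorem exW_eq {T : Finset (Finset (Fin 13))} (hT : Fam 3 T) :
    exW (bw (ind T)) = bw fun s => if s.card = 2 then cnt T s / 2 else 0 := by
  unfold exW cC1
  rw [corr_bw (i := 2) (j := 1) (b := 1) (fun s _ hs => hT.ind_zero hs) (fun s _ => ind_le T s)
    (by decide +kernel) (by decide), bw_half]
  · refine bw_congr fun s _ => ?_
    split_ifs with h
    · rw [sup_count (i := 2) (j := 1) hT h]
    · rfl
  · intro s _
    split_ifs with h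
    · rw [sup_count (i := 2) (j := 1) hT h]
      have := cnt_le_choose (i := 2) (j := 1) hT h
      rw [Nat.choose_one_right] at this
      omega
    · norm_num

theorem halfW_eq {B : Finset (Finset (Fin 13))} (hB : OddCover B) {p p' : Fin 13}
    (h : Spec p p') :
    halfW (bw (ind (link (link B p) p'))) (degW (bw (ind (link (link B p) p'))))
      (bw (ind (outer B p p'))) = bw (hf B p p') := by
  have hE := fam_outer hB h
  have hT := fam_common hB h
  set E := outer B p p' with hEd
  set T := link (link B p) p' with hTd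
  unfold halfW cC1 cC3
  rw [degW_eq hT]
  rw [corr_bw (i := 3) (j := 1) (b := 1) (fun s _ hs => hE.ind_zero hs) (fun s _ => ind_le E s)
    (by decide +kernel) (by decide)]
  rw [corr_bw (i := 1) (j := 3) (b := 1) (fun s _ hs => hE.ind_zero hs) (fun s _ => ind_le E s)
    (by decide +kernel) (by decide)]
  rw [bw_add]
  have hc3 : ∀ s : Finset (Fin 13), s ⊆ R11 →
      (if s.card = 3 then ∑ t ∈ (R11.powersetCard 1).filter (Disjoint s), ind E (s ∪ t) else 0) +
        ind T s = if s.card = 3 then cnt E s + ind T s else 0 := by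
    intro s _
    split_ifs with h1
    · rw [sup_count (i := 3) (j := 1) hE h1]
    · rw [hT.ind_zero h1]
  rw [bw_congr hc3]
  have hlt3 : ∀ s ⊆ R11, (if s.card = 3 then cnt E s + ind T s else 0) < 24 := by
    intro s _
    split_ifs with h1
    · have h2 := cnt_le_choose (i := 3) (j := 1) hE h1
      rw [Nat.choose_one_right] at h2
      have h3 := ind_le T s
      omega
    · norm_num
  rw [bw_half fun s hs => lt_of_lt_of_le (hlt3 s hs) (by norm_num)]
  have he3 : ∀ s : Finset (Fin 13), s ⊆ R11 →
      (if s.card = 3 then (if s.card = 3 then cnt E s + ind T s else 0) / 2 else 0) =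
        if s.card = 3 then cnt B (insert p s) / 2 else 0 := by
    intro s hs
    split_ifs with h1
    · rw [cnt_insert_spec h hs, cnt_same hT h1]
    · rfl
  rw [bw_congr he3]
  rw [corr_bw (i := 2) (j := 1) (b := 12) (fun s _ hs => if_neg hs) (fun s hs => by
    have h2 := hlt3 s hs
    rw [← he3 s hs]
    split_ifs at h2 ⊢
    · omega
    · omega) (by decide +kernel) (by decide)]
  have hp2 : ∀ s : Finset (Fin 13), s ⊆ R11 →
      (if s.card = 2 then ∑ t ∈ (R11.powersetCard 1).filter (Disjoint s),
        (if (s ∪ t).card = 3 then cnt B (insert p (s ∪ t)) / 2 else 0) else 0) =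
      if s.card = 2 then hp2 B p p' s else 0 := by
    intro s hs
    split_ifs with h1
    · rw [sum_disj_one (s := s) (fun r => if r.card = 3 then cnt B (insert p r) / 2 else 0),
        hp2_eq h hs h1]
      refine sum_congr rfl fun v hv => ?_
      rw [mem_sdiff] at hv
      rw [if_pos (by rw [card_insert_of_notMem hv.2, h1])]
    · rfl
  rw [bw_congr hp2]
  rw [bw_add]
  unfold lay
  rw [bw_sub']
  · rw [show (bw fun s => if s.card = 1 then 127 else 0) = lay 127 1 from rfl, bw_half, bw_add]
    · refine bw_congr fun s hs => ?_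
      unfold hf
      congr 1
      split_ifs with h1
      · rw [sup_count (i := 1) (j := 3) hE h1]
        have h2 := hp1_eq hB h hs h1
        rw [← hEd, ← hTd] at h2
        omega
      · rfl
    · intro s hs
      split_ifs with h1
      · rw [sup_count (i := 1) (j := 3) hE h1]
        have h2 := cnt_le_choose (i := 1) (j := 3) hE h1
        have h3 := cnt_le_choose (i := 1) (j := 2) hT h1
        have e1 : Nat.choose 11 3 = 165 := by decide
        have e2 : Nat.choose 11 2 = 55 := by decide
        omega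
      · norm_num
  · intro s hs
    split_ifs with h1
    · rw [sup_count (i := 1) (j := 3) hE h1]
      have h2 := hp1_eq hB h hs h1
      rw [← hEd, ← hTd] at h2
      omega
    · exact Nat.zero_le _

theorem P1_eq {B : Finset (Finset (Fin 13))} {s : Finset (Fin 13)} (hs : s ⊆ R11)
    (h2 : s.card = 2) :
    P1 B s = cnt (link (link B 12) 11) s / 2 + hp2 B 12 11 s + hp2 B 11 12 s := by
  have h12 : (12 : Fin 13) ∉ s := Spec.notMem (Or.inl ⟨rfl, rfl⟩) hs
  have h11 : (11 : Fin 13) ∉ s := Spec.notMem (Or.inr ⟨rfl, rfl⟩) hs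
  have e1 : quads.filter (fun q => s ⊆ q ∧ (12 ∈ q ∨ 11 ∈ q)) =
      {insert 12 (insert 11 s)} ∪ (quads.filter (fun q => s ⊆ q ∧ 12 ∈ q ∧ 11 ∉ q) ∪
        quads.filter (fun q => s ⊆ q ∧ 11 ∈ q ∧ 12 ∉ q)) := by
    ext q
    simp only [mem_union, mem_singleton, mem_filter, mem_quads]
    constructor
    · rintro ⟨h4, h5, h6⟩
      by_cases ha : (12 : Fin 13) ∈ q
      · by_cases hb : (11 : Fin 13) ∈ q
        · left
          refine (eq_of_subset_of_card_le ?_ ?_).symm
          · exact insert_subset ha (insert_subset hb h5)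
          · rw [card_insert_of_notMem, card_insert_of_notMem h11, h2, h4]
            rw [mem_insert, not_or]
            exact ⟨by decide, h12⟩
        · right; left
          exact ⟨h4, h5, ha, hb⟩
      · right; right
        exact ⟨h4, h5, h6.resolve_left ha, ha⟩
    · rintro (rfl | ⟨h4, h5, h6, h7⟩ | ⟨h4, h5, h6, h7⟩)
      · refine ⟨?_, (subset_insert 11 s).trans (subset_insert 12 _),
          Or.inl (mem_insert_self _ _)⟩
        rw [card_insert_of_notMem, card_insert_of_notMem h11, h2]
        rw [mem_insert, not_or]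
        exact ⟨by decide, h12⟩
      · exact ⟨h4, h5, Or.inl h6⟩
      · exact ⟨h4, h5, Or.inr h6⟩
  unfold P1
  rw [e1, sum_union, sum_singleton, sum_union, ← add_assoc]
  · congr 2
    unfold ex
    rw [cnt_link, cnt_link B, insert_comm]
    · rw [mem_insert, not_or]
      exact ⟨by decide, h12⟩
    · exact h11
  · rw [disjoint_left]
    intro q hq hq'
    rw [mem_filter] at hq hq'
    exact hq.2.2.2 hq'.2.2.1
  · rw [disjoint_left]
    intro q hq hq'
    rw [mem_singleton] at hq
    rw [mem_union, mem_filter, mem_filter, hq] at hq'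
    rcases hq' with h3 | h3
    · exact h3.2.2.2 (mem_insert_of_mem (mem_insert_self _ _))
    · exact h3.2.2.2 (mem_insert_self _ _)

/-- THE PAIR WORD -/
theorem pairQ_eq {B : Finset (Finset (Fin 13))} (hB : OddCover B) :
    pairQ (bw (ind (link (link B 12) 11))) (bw (ind (outer B 12 11)))
      (bw (ind (outer B 11 12))) = bw (qf B fun _ => 0) := by
  have hx : Spec 12 11 := Or.inl ⟨rfl, rfl⟩
  have hy : Spec 11 12 := Or.inr ⟨rfl, rfl⟩
  have hT := fam_common hB hx
  have hEx := fam_outer hB hx
  have hEy := fam_outer hB hy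
  have h1 := halfW_eq hB hx
  have h2 := halfW_eq hB hy
  rw [link_comm B 11 12] at h2
  unfold pairQ
  rw [h1, h2, exW_eq hT, bw_mul, bw_add, bw_add, bw_add, bw_add, bw_add]
  refine bw_congr fun s hs => ?_
  have h12 : (12 : Fin 13) ∉ s := hx.notMem hs
  have h11 : (11 : Fin 13) ∉ s := hy.notMem hs
  have e1 : ind (outer B 12 11) s = if s ∈ link B 12 then 1 else 0 := by
    unfold ind outer
    simp only [mem_filter, h11, not_false_eq_true, and_true]
  have e2 : ind (outer B 11 12) s = if s ∈ link B 11 then 1 else 0 := by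
    unfold ind outer
    simp only [mem_filter, h12, not_false_eq_true, and_true]
  unfold qf hf
  by_cases c4 : s.card = 4
  · rw [if_pos c4, hT.ind_zero (by omega), if_neg (by omega), if_neg (by omega),
      if_neg (by omega), if_neg (by omega), if_neg (by omega), e1, e2]
    split_ifs <;> omega
  · rw [if_neg c4, hEx.ind_zero c4, hEy.ind_zero c4]
    by_cases c3 : s.card = 3
    · rw [if_pos c3, if_neg (by omega), if_neg (by omega), if_neg (by omega),
        if_neg (by omega), if_neg (by omega)]
      unfold ind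
      omega
    · rw [if_neg c3, hT.ind_zero c3]
      by_cases c2 : s.card = 2
      · rw [if_pos c2, if_pos c2, if_pos c2, if_pos c2, if_neg (by omega), if_neg (by omega),
          P1_eq hs c2]
        omega
      · rw [if_neg c2, if_neg c2, if_neg c2, if_neg c2]
        by_cases c1 : s.card = 1
        · rw [if_pos c1, if_pos c1, if_pos c1]
          unfold hp1
          rw [sum_add_distrib]
          show _ = _ + 64 * 0
          omega
        · rw [if_neg c1, if_neg c1, if_neg c1]

theorem pw_pairQ {B : Finset (Finset (Fin 13))} (hB : OddCover B) :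
    PW B (pairQ (bw (ind (link (link B 12) 11))) (bw (ind (outer B 12 11)))
      (bw (ind (outer B 11 12)))) :=
  ⟨fun _ => 0, pairQ_eq hB, fun _ => Nat.zero_le _, fun _ _ h => absurd h (by norm_num)⟩

end Pool.Agent.Helper33.TY
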