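import Pool.Agent.Helper57.TZ.RelE

/-!
MP_8ee768_co, project TH-Y', stage 0: the root of a sub-run.

`rootOK T Z F cap N = true` (one kernel check per sub-run): `N` is the pruned word of the start state.
`root`: such an `N` is the word of a state with the relation `NRel` whose members bound the sub-run.
-/

set_option autoImplicit false
set_option maxRecDepth 100000
set_option exponentiation.threshold 20000

namespace Pool.Agent.Helper33.TY.Root

open Finset
open Pool.Agent.Helper79.CV (L length_L mem_L lt_of_mem_L nodup_L)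
open Pool.Agent.Helper63.SIMD Pool.Agent.Helper97.TY
open Pool.Agent.Helper69.TY (CountLe above)
open Pool.Agent.Helper58.TB
open Pool.Agent.Helper57.TZ

/-! ## numbers from cells -/

/-- the cells of the sum of the `a i` at the positions `P i` -/
def sS (P a : ℕ → ℕ) (k m : ℕ) : ℕ := ∑ i ∈ range k, if P i = m then a i else 0

theorem sS_self {P a : ℕ → ℕ} {k i : ℕ} (hi : i < k) (hP : ∀ j < k, P j = P i → j = i) :
    sS P a k (P i) = a i := by
  unfold sS
  rw [sum_eq_single i]
  · rw [if_pos rfl]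
  · intro j hj hji
    rw [if_neg fun h => hji (hP j (mem_range.1 hj) h)]
  · intro h
    exact absurd (mem_range.2 hi) h

theorem sS_zero {P a : ℕ → ℕ} {k m : ℕ} (h : ∀ i < k, P i ≠ m) : sS P a k m = 0 := by
  unfold sS
  exact sum_eq_zero fun i hi => if_neg (h i (mem_range.1 hi))

theorem pk_sS {P a : ℕ → ℕ} {W k n : ℕ} (h : ∀ i < k, P i < n) :
    pk W n (sS P a k) = ∑ i ∈ range k, a i * 2 ^ (W * P i) := by
  unfold pk sS
  simp only [sum_mul]
  rw [sum_comm]
  refine sum_congr rfl fun i hi => ?_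
  rw [sum_eq_single (P i)]
  · rw [if_pos rfl]
  · intro m _ hm
    rw [if_neg (Ne.symm hm), zero_mul]
  · intro h1
    exact absurd (mem_range.2 (h i (mem_range.1 hi))) h1

/-- sum of `f i * 16 ^ m` over the members `m` of a list, `i` = the position -/
def sw (f : ℕ → ℕ) (l : List ℕ) : ℕ → ℕ :=
  List.rec (motive := fun _ => ℕ → ℕ) (fun _ => 0)
    (fun m _ ih i => Nat.add (Nat.mul (f i) (Nat.pow 2 (Nat.mul 4 m))) (ih (Nat.succ i))) l

theorem sw_eq (f : ℕ → ℕ) (l : List ℕ) : ∀ i, sw f l i =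
    ∑ j ∈ range l.length, f (i + j) * 2 ^ (4 * l.getD j 0) := by
  induction l with
  | nil => intro i; rfl
  | cons m l ih =>
    intro i
    have e1 : sw f (m :: l) i = f i * 2 ^ (4 * m) + sw f l (i + 1) := rfl
    rw [e1, ih, List.length_cons, sum_range_succ', Nat.add_comm (f i * 2 ^ (4 * m))]
    congr 1
    · refine sum_congr rfl fun j _ => ?_
      rw [List.getD_cons_succ, show i + (j + 1) = i + 1 + j by omega]

/-- sum of the `f i` for `i < n` -/
def sN (f : ℕ → ℕ) (n : ℕ) : ℕ :=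
  Nat.rec (motive := fun _ => ℕ) 0 (fun i s => Nat.add s (f i)) n

theorem sN_eq (f : ℕ → ℕ) : ∀ n, sN f n = ∑ i ∈ range n, f i := by
  intro n
  induction n with
  | zero => rfl
  | succ n ih =>
    rw [sum_range_succ, ← ih]
    rfl

/-! ## the excess of the pairs -/

/-- the members of the list `l` at the positions of the bits of `T` -/
def sel (T : ℕ) (l : List ℕ) : ℕ → List ℕ :=
  List.rec (motive := fun _ => ℕ → List ℕ) (fun _ => [])
    (fun m _ ih i => @Bool.rec (fun _ => List ℕ) (ih (Nat.succ i)) (m :: ih (Nat.succ i))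
      (Nat.testBit T i)) l

/-- number of the members of the list `l` above the mask `m` -/
def cn (m : ℕ) (l : List ℕ) : ℕ :=
  List.rec (motive := fun _ => ℕ) 0
    (fun b _ ih => @Bool.rec (fun _ => ℕ) ih (Nat.succ ih) (Nat.beq (Nat.land m b) m)) l

theorem cb_sel (T m : ℕ) (l : List ℕ) : ∀ i, cb T (above m i l) = cn m (sel T l i) := by
  induction l with
  | nil => intro i; rfl
  | cons b l ih =>
    intro i
    have e1 : above m i (b :: l) = cond (Nat.beq (Nat.land m b) m) (i :: above m (i + 1) l)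
      (above m (i + 1) l) := rfl
    have e2 : sel T (b :: l) i = @Bool.rec (fun _ => List ℕ) (sel T l (i + 1))
      (b :: sel T l (i + 1)) (Nat.testBit T i) := rfl
    have e3 : ∀ l', cn m (b :: l') = @Bool.rec (fun _ => ℕ) (cn m l') (Nat.succ (cn m l'))
      (Nat.beq (Nat.land m b) m) := fun _ => rfl
    have e4 : ∀ q l', cb T (q :: l') = (T.testBit q).toNat + cb T l' := fun _ _ => rfl
    rw [e1, e2]
    cases h1 : Nat.beq (Nat.land m b) m
    · rw [cond_false, ih]
      cases T.testBit i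
      · rfl
      · show _ = cn m (b :: sel T l (i + 1))
        rw [e3, h1]
    · rw [cond_true, e4, ih]
      cases T.testBit i
      · rw [Bool.toNat_false, Nat.zero_add]
      · show _ = cn m (b :: sel T l (i + 1))
        rw [e3, h1, Bool.toNat_true, Nat.add_comm]

/-- the excess of the pairs at `a`, `l` = the masks of the triples -/
def hF (l : List ℕ) (a : ℕ) : ℕ :=
  sN (fun b => @Bool.rec (fun _ => ℕ) (Nat.div (cn (Nat.add (Nat.pow 2 a) (Nat.pow 2 b)) l) 2) 0
    (Nat.beq b a)) 11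

theorem hF_eq (T a : ℕ) : hF (sel T (L 11 3) 0) a = hP T a := by
  unfold hF hP
  rw [sN_eq, sum_filter]
  refine sum_congr rfl fun b _ => ?_
  by_cases h : b = a
  · subst h
    rw [Nat.beq_refl, if_neg fun h => h rfl]
  · have h1 : Nat.beq b a = false := by
      rw [← Bool.not_eq_true]
      exact fun h2 => h (Nat.eq_of_beq_eq_true h2)
    rw [h1, if_pos h, cb_sel]
    rfl

/-! ## the start word -/

/-- the budget -/
def bF (F : ℕ) (l : List ℕ) : ℕ := sN (fun v => bgt (F.testBit v) (hF l v)) 11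

/-- the digits -/
def pF (F : ℕ) (l : List ℕ) : ℕ :=
  sN (fun v => Nat.mul (dgt (F.testBit v) (hF l v)) (Nat.pow 2 (Nat.mul 4 (Nat.pow 2 v)))) 11

/-- the start word, not pruned; `l` = the masks of the triples -/
def nF (T F cap : ℕ) (l : List ℕ) : ℕ :=
  Nat.add (Nat.add (sw (fun t => Nat.add 6 (T.testBit t).toNat) (L 11 3) 0) (sw (fun _ => 8) (L 11 4) 0))
    (Nat.add (pF F l) (Nat.mul (Nat.add (Nat.sub 7 cap) (bF F l)) (Nat.pow 2 8192)))

/-- the numbers of the zero points -/
def zF (Z : ℕ) : ℕ :=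
  sN (fun v => @Bool.rec (fun _ => ℕ) 0 (Nat.pow 2 (Nat.mul 4 (Nat.pow 2 v))) (Z.testBit v)) 11

/-- the pruned word -/
def rF (zm N : ℕ) : ℕ :=
  Pool.Agent.Helper69.TY.V3.pr N (Nat.land N (Pool.Agent.Helper69.TY.V3.zt zm N))

/-- **the check of the root of a sub-run** -/
def rootOK (T Z F cap N : ℕ) : Bool :=
  Nat.beq N (rF (zF Z) (nF T F cap (sel T (L 11 3) 0))) &&
    Nat.ble (bF F (sel T (L 11 3) 0)) cap && Nat.ble cap 7

/-- the cells of the start word -/
def wF (T F cap m : ℕ) : ℕ :=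
  sS M3 (fun t => 6 + (T.testBit t).toNat) 165 m + sS M4 (fun _ => 8) 330 m +
    (sS (fun v => 2 ^ v) (fun v => dgt (F.testBit v) (hP T v)) 11 m +
      sS (fun _ => 2048) (fun _ => 7 - cap + ∑ v ∈ range 11, bgt (F.testBit v) (hP T v)) 1 m)

theorem bF_eq (T F : ℕ) : bF F (sel T (L 11 3) 0) = ∑ v ∈ range 11, bgt (F.testBit v) (hP T v) := by
  unfold bF
  rw [sN_eq]
  exact sum_congr rfl fun v _ => by rw [hF_eq]

theorem nF_eq (T F cap : ℕ) : nF T F cap (sel T (L 11 3) 0) = pk 4 2049 (wF T F cap) := by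
  have e1 : sw (fun t => Nat.add 6 (T.testBit t).toNat) (L 11 3) 0 =
      pk 4 2049 (sS M3 (fun t => 6 + (T.testBit t).toNat) 165) := by
    rw [pk_sS fun i hi => by have := M3_lt hi; omega, sw_eq, length_L]
    refine sum_congr rfl fun t _ => ?_
    rw [Nat.zero_add]
    rfl
  have e2 : sw (fun _ => 8) (L 11 4) 0 = pk 4 2049 (sS M4 (fun _ => 8) 330) := by
    rw [pk_sS fun i hi => by have := M4_lt hi; omega, sw_eq, length_L]
    rfl
  have e3 : pF F (sel T (L 11 3) 0) =
      pk 4 2049 (sS (fun v => 2 ^ v) (fun v => dgt (F.testBit v) (hP T v)) 11) := by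
    rw [pk_sS fun i hi => by have := pow_lt hi; omega]
    unfold pF
    rw [sN_eq]
    refine sum_congr rfl fun v _ => ?_
    rw [hF_eq]
    rfl
  have e4 : Nat.mul (Nat.add (Nat.sub 7 cap) (bF F (sel T (L 11 3) 0))) (Nat.pow 2 8192) =
      pk 4 2049 (sS (fun _ => 2048)
        (fun _ => 7 - cap + ∑ v ∈ range 11, bgt (F.testBit v) (hP T v)) 1) := by
    rw [pk_sS fun i _ => by norm_num, sum_range_one, bF_eq]
    rfl
  have e5 : wF T F cap = fun m =>
      (fun m => sS M3 (fun t => 6 + (T.testBit t).toNat) 165 m + sS M4 (fun _ => 8) 330 m) m +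
      (fun m => sS (fun v => 2 ^ v) (fun v => dgt (F.testBit v) (hP T v)) 11 m +
        sS (fun _ => 2048) (fun _ => 7 - cap + ∑ v ∈ range 11, bgt (F.testBit v) (hP T v)) 1 m) m :=
    rfl
  rw [e5, ← pk_add, ← pk_add, ← pk_add]
  unfold nF
  rw [e1, e2, e3, e4]
  rfl

/-! ## the relation at the start -/

theorem nT_zero (T : ℕ) {t : ℕ} : nT T 0 t = (T.testBit t).toNat := by
  have h : ∀ l : List ℕ, cb 0 l = 0 := by
    intro l
    induction l with
    | nil => rfl
    | cons q l ih =>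
      show (Nat.testBit 0 q).toNat + cb 0 l = 0
      rw [ih, Nat.zero_testBit]
      rfl
  unfold nT
  rw [h, Nat.zero_add]

theorem hC_zero (T v : ℕ) : hC T 0 v = 0 := by
  unfold hC
  refine sum_eq_zero fun t _ => ?_
  rw [nT_zero]
  cases T.testBit t <;> rfl

theorem hv_zero (T v : ℕ) : hv T 0 v = hP T v := by
  unfold hv
  rw [hC_zero, Nat.zero_add]

theorem wF_tri (T F cap : ℕ) {t : ℕ} (ht : t < 165) : wF T F cap (M3 t) = 6 + (T.testBit t).toNat := by
  unfold wF
  rw [sS_self (a := fun t => 6 + (T.testBit t).toNat) ht fun j hj h => M3_inj hj ht h,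
    sS_zero (P := M4) fun q hq h => M3_ne_M4 ht hq h.symm,
    sS_zero (P := fun v => 2 ^ v) fun v hv' h => pow_ne_M3 (by omega : v < 12) ht h,
    sS_zero (P := fun _ => 2048) fun _ _ h => pow_ne_M3 (v := 11) (by norm_num) ht h]
  omega

theorem wF_quad (T F cap : ℕ) {q : ℕ} (hq : q < 330) : wF T F cap (M4 q) = 8 := by
  unfold wF
  rw [sS_zero (P := M3) fun t ht h => M3_ne_M4 ht hq h,
    sS_self (P := M4) (a := fun _ => 8) hq fun j hj h => M4_inj hj hq h,
    sS_zero (P := fun v => 2 ^ v) fun v hv' h => pow_ne_M4 (by omega : v < 12) hq h,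
    sS_zero (P := fun _ => 2048) fun _ _ h => pow_ne_M4 (v := 11) (by norm_num) hq h]

theorem wF_pt (T F cap : ℕ) {v : ℕ} (hv' : v < 11) :
    wF T F cap (2 ^ v) = dgt (F.testBit v) (hP T v) := by
  unfold wF
  rw [sS_zero (P := M3) fun t ht h => pow_ne_M3 (by omega : v < 12) ht h.symm,
    sS_zero (P := M4) fun q hq h => pow_ne_M4 (by omega : v < 12) hq h.symm,
    sS_self (P := fun v => 2 ^ v) (a := fun v => dgt (F.testBit v) (hP T v)) hv'
      fun j _ h => pow_inj h,
    sS_zero (P := fun _ => 2048) fun _ _ h => by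
      have := pow_lt hv'
      omega]
  omega

theorem wF_bud (T F cap : ℕ) : wF T F cap 2048 =
    7 - cap + ∑ v ∈ range 11, bgt (F.testBit v) (hP T v) := by
  unfold wF
  rw [sS_zero (P := M3) (m := 2048) fun t ht h => pow_ne_M3 (v := 11) (by norm_num) ht h.symm,
    sS_zero (P := M4) (m := 2048) fun q hq h => pow_ne_M4 (v := 11) (by norm_num) hq h.symm,
    sS_zero (P := fun v => 2 ^ v) (m := 2048) fun v hv' h => by
      have := pow_lt hv'
      omega,
    sS_self (P := fun _ => 2048) (i := 0)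
      (a := fun _ => 7 - cap + ∑ v ∈ range 11, bgt (F.testBit v) (hP T v)) (by norm_num)
      fun j hj _ => by omega]
  omega

theorem wF_oth (T F cap : ℕ) {m : ℕ} (hm : m < 2048) (h3 : m ∉ L 11 3) (h4 : m ∉ L 11 4)
    (h5 : ∀ v < 11, m ≠ 2 ^ v) : wF T F cap m = 0 := by
  unfold wF
  rw [sS_zero (P := M3) (m := m) fun t ht h => h3 (h ▸ M3_mem ht),
    sS_zero (P := M4) (m := m) fun q hq h => h4 (h ▸ M4_mem hq),
    sS_zero (P := fun v => 2 ^ v) (m := m) fun v hv' h => h5 v hv' h.symm,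
    sS_zero (P := fun _ => 2048) (m := m) fun _ _ h => by omega]

/-- **the start state** -/
theorem NRel_start {T Z F cap : ℕ} (hb : ∑ v ∈ range 11, bgt (F.testBit v) (hP T v) ≤ cap) :
    NRel T Z F cap 0 (fun q => q < 330) (wF T F cap) where
  tri := fun t ht => by
    rw [wF_tri T F cap ht, nT_zero]
    cases T.testBit t <;> rfl
  qa := fun q hq _ => wF_quad T F cap hq
  qn := fun q hq h => absurd hq h
  lt := fun q h => h
  dis := fun q _ => Nat.zero_testBit q
  pt := fun v hv' => by rw [wF_pt T F cap hv', hv_zero]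
  bud := by
    rw [wF_bud]
    exact congrArg (fun x => 7 - cap + x) (sum_congr rfl fun v _ => by rw [hv_zero])
  ok := by
    refine le_trans (le_of_eq (sum_congr rfl fun v _ => ?_)) hb
    rw [hv_zero]
  oth := fun m hm h3 h4 h5 => wF_oth T F cap hm h3 h4 h5

/-! ## the zero points -/

/-- the cells of the zero points -/
def zS (Z : ℕ) : Finset ℕ := ((range 11).filter fun v => Z.testBit v = true).image fun v => 2 ^ v

theorem mem_zS {Z v : ℕ} : 2 ^ v ∈ zS Z ↔ v < 11 ∧ Z.testBit v = true := by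
  unfold zS
  rw [mem_image]
  constructor
  · rintro ⟨u, hu, h⟩
    rw [mem_filter, mem_range] at hu
    rw [← pow_inj h]
    exact hu
  · intro h
    exact ⟨v, by rw [mem_filter, mem_range]; exact h, rfl⟩

theorem zS_lt {Z : ℕ} : ∀ a ∈ zS Z, a < 2049 := by
  intro a ha
  unfold zS at ha
  rw [mem_image] at ha
  obtain ⟨v, hv', rfl⟩ := ha
  rw [mem_filter, mem_range] at hv'
  have := pow_lt hv'.1
  omega

theorem zF_eq (Z : ℕ) : zF Z = gs 4 (zS Z) := by
  unfold zF gs zS
  rw [sN_eq, sum_image fun a _ b _ h => pow_inj h, sum_filter]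
  refine sum_congr rfl fun v _ => ?_
  cases Z.testBit v
  · rfl
  · rfl

/-! ## the root -/

/-- **the root of a sub-run** -/
theorem root_St {T Z F cap N : ℕ} (h : rootOK T Z F cap N = true) :
    ∃ (av : ℕ → Prop) (w : ℕ → ℕ), N = pk 4 2049 w ∧ NRel T Z F cap 0 av w ∧
      ∀ K, CountLe (St T Z F cap 0 av) K → CountLe (St T Z F cap 0 fun q => q < 330) K := by
  unfold rootOK at h
  rw [Bool.and_eq_true, Bool.and_eq_true] at h
  obtain ⟨⟨h1, h2⟩, h3⟩ := h
  have h1 := Nat.eq_of_beq_eq_true h1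
  have h2 := Nat.le_of_ble_eq_true h2
  have hcap := Nat.le_of_ble_eq_true h3
  rw [bF_eq] at h2
  rw [nF_eq, zF_eq] at h1
  have hR := NRel_start (Z := Z) h2
  obtain ⟨Zs, h4, h5⟩ := hR.zt (zs := zS Z) hcap fun v _ hv' => (mem_zS.1 hv').2
  obtain ⟨e1, e2⟩ := hR.land_gs hcap h5
  obtain ⟨f1, f2, f3⟩ := hR.pruneW hcap h5 e2
  refine ⟨_, _, ?_, f2, f3⟩
  rw [h1]
  unfold rF
  rw [h4, e1]
  exact f1

/-- the root and the bound of the sub-run -/
theorem root {T Z F cap N : ℕ} (h : rootOK T Z F cap N = true) :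
    ∃ (av : ℕ → Prop) (w : ℕ → ℕ), N = pk 4 2049 w ∧ NRel T Z F cap 0 av w ∧
      ∀ K, CountLe (St T Z F cap 0 av) K → CountSub T Z F cap K := by
  obtain ⟨av, w, h1, h2, h3⟩ := root_St h
  exact ⟨av, w, h1, h2, fun K hK => countSub_of_St (h3 K hK)⟩

/-- a claim for the word of the root gives the bound of the sub-run -/
theorem root_claim {T Z F cap N K : ℕ} (h : rootOK T Z F cap N = true)
    (hK : ∀ (inc : ℕ) (av : ℕ → Prop) (w : ℕ → ℕ), N = pk 4 2049 w → NRel T Z F cap inc av w →
      CountLe (St T Z F cap inc av) K) : CountSub T Z F cap K := by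
  obtain ⟨av, w, h1, h2, h3⟩ := root h
  exact h3 K (hK 0 av w h1 h2)

/-- **the check of the root**, with the number `zm` of the zero points -/
def rootB (T Z F cap zm N : ℕ) : Bool := rootOK T Z F cap N && Nat.beq zm (zF Z)

theorem rootB_zm {T Z F cap zm N : ℕ} (h : rootB T Z F cap zm N = true) : zm = gs 4 (zS Z) := by
  unfold rootB at h
  rw [Bool.and_eq_true] at h
  exact (Nat.eq_of_beq_eq_true h.2).trans (zF_eq Z)

/-- the claim in the form of `Helper58.TI.Claim` gives the bound of the start state -/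
theorem rootB_St {T Z F cap zm N K : ℕ} (h : rootB T Z F cap zm N = true)
    (hK : ∀ (inc : ℕ) (av : ℕ → Prop), (∃ w, N = pk 4 2049 w ∧ NRel T Z F cap inc av w) →
      CountLe (St T Z F cap inc av) K) : CountLe (St T Z F cap 0 fun q => q < 330) K := by
  unfold rootB at h
  rw [Bool.and_eq_true] at h
  obtain ⟨av, w, h1, h2, h3⟩ := root_St h.1
  exact h3 K (hK 0 av ⟨w, h1, h2⟩)

/-- the claim in the form of `Helper58.TI.Claim` gives the bound of the sub-run -/
theorem rootB_Sub {T Z F cap zm N K : ℕ} (h : rootB T Z F cap zm N = true)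
    (hK : ∀ (inc : ℕ) (av : ℕ → Prop), (∃ w, N = pk 4 2049 w ∧ NRel T Z F cap inc av w) →
      CountLe (St T Z F cap inc av) K) : CountSub T Z F cap K := countSub_of_St (rootB_St h hK)

/-- the points of `zm`, in the form used by `NRel.hitDead` and `NRel.childHit` -/
theorem zS_spec {Z : ℕ} : (∀ a ∈ zS Z, a < 2049) ∧ ∀ v < 11, 2 ^ v ∈ zS Z → Z.testBit v = true :=
  ⟨zS_lt, fun _ _ h => (mem_zS.1 h).2⟩

end Pool.Agent.Helper33.TY.Root
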