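import Pool.Agent.Helper33.TY.ELoop
import Pool.Agent.Helper33.TY.RWord
import Pool.Agent.Helper54.TY.QS
import Pool.Agent.Helper25.TY.Rx
import Pool.Agent.Helper28.TY.HRun

/-!
MP_8ee768_co, project TH-Y', stage S: the concrete program of a unit, generic in the tables.

`unitG ty piece gP gN b T8 DT rs es cs` checks the entries `es` against the roots `rs` (triples:
value, code, word) with the certificates `cs`.
-/

set_option autoImplicit false

namespace Pool.Agent.Helper33.TY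

open Finset
open Pool.Agent.Helper89.CV (OddCover ofMask)
open Pool.Agent.Helper97.CV Pool.Agent.Helper79.CV
open Pool.Agent.Helper4.CV
open Pool.Agent.Helper25.TY (rx rx_sound)
open Pool.Agent.Helper54.TY
open Pool.Agent.Helper59.TY (exw tyC gath tA tB)
open Pool.Agent.Helper67.TY (GluedOK)
open Pool.Agent.Helper28.TY (runT rlanes hrun_QS)
open Pool.Agent.Gen.TY.EN

/-- the operations for `b` and the value `a` of the root; `n` types -/
noncomputable def opsG (n : ℕ) (ty piece gP gN : ℕ → ℕ) (b a : ℕ) : SOps :=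
  ⟨exw, zstep ⟨tyC ty n, runT (89 - a - b - 6) 6 true piece gP gN⟩, setZ, pfin6 (89 - a - b)⟩

/-- **a unit of stage S** -/
noncomputable def unitG (n : ℕ) (ty piece gP gN : ℕ → ℕ) (b T8 DT : ℕ) (rs : List (ℕ × ℕ × ℕ))
    (es cs : List ℕ) : Bool :=
  eOk (opsG n ty piece gP gN b) qS (eH T8 DT) (fun a r => rx a b r) rs es cs

theorem dead_unitG {n : ℕ} {ty piece gP gN G : ℕ → ℕ} {b T T8 DT : ℕ}
    (hglue : GluedOK n G (rlanes piece gP gN))
    (htie : ∀ t < n, gath (tA (ty t)) (tB (ty t)) = G t)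
    (hb : b ≤ 4) (hT : T < 2 ^ 165) (h8 : T8 = tW T)
    (hD : DT = degK (tW T)) {rs : List (ℕ × ℕ × ℕ)} {es cs : List ℕ}
    (hrs : ∀ p ∈ rs, p.1 ≤ 2 ∧ p.2.1 >>> 330 = T ∧ p.2.2 = rootK T8 DT p.2.1)
    (h : unitG n ty piece gP gN b T8 DT rs es cs = true) :
    ∀ p ∈ rs, ∀ e ∈ es, PDead (QS p.1 b) p.2.1 (cone 11 (fam 11 4 e)) := by
  refine pdead_of_eOk (C := fun a B x y => QS a b B x y) (W := PW) ?_ ?_ ?_ h
  · intro p hp
    obtain ⟨h1, -, -⟩ := hrs p hp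
    exact sok_QS hglue htie (hrun_QS (by omega) piece gP gN)
  · intro p hp B e hC hl hu
    obtain ⟨h1, h2, h3⟩ := hrs p hp
    exact pw_qS hC.1 (by omega) (by omega) hT h8 hD h2 h3 hl hu
  · intro p hp k m e hk
    exact pdead_QS (rx_sound (by omega) hk)

/-! ## the roots -/

/-- roots of the first pair link -/
def rwA : List (ℕ × ℕ × ℕ) := rwA0 ++ rwA2

/-- roots of the second pair link -/
def rwB : List (ℕ × ℕ × ℕ) := rwB0 ++ rwB2

theorem rwA_ok : ∀ p ∈ rwA, p.1 ≤ 2 ∧ p.2.1 >>> 330 = repA ∧ p.2.2 = rootK t8A dtA p.2.1 := by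
  intro p hp
  rcases List.mem_append.1 hp with hp | hp
  · obtain ⟨h1, h2, h3⟩ := rwOk_true rwA0_ok p hp
    exact ⟨by omega, h2, h3⟩
  · obtain ⟨h1, h2, h3⟩ := rwOk_true rwA2_ok p hp
    exact ⟨by omega, h2, h3⟩

theorem rwB_ok : ∀ p ∈ rwB, p.1 ≤ 2 ∧ p.2.1 >>> 330 = repB ∧ p.2.2 = rootK t8B dtB p.2.1 := by
  intro p hp
  rcases List.mem_append.1 hp with hp | hp
  · obtain ⟨h1, h2, h3⟩ := rwOk_true rwB0_ok p hp
    exact ⟨by omega, h2, h3⟩
  · obtain ⟨h1, h2, h3⟩ := rwOk_true rwB2_ok p hp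
    exact ⟨by omega, h2, h3⟩

theorem map_rwA : rwA.map (fun p => (p.1, p.2.1)) =
    rA0.map (fun r => (0, r)) ++ rA2.map (fun r => (2, r)) := by decide +kernel

theorem map_rwB : rwB.map (fun p => (p.1, p.2.1)) =
    rB0.map (fun r => (0, r)) ++ rB2.map (fun r => (2, r)) := by decide +kernel

theorem dead_unitGA {n : ℕ} {ty piece gP gN G : ℕ → ℕ} {b : ℕ}
    (hglue : GluedOK n G (rlanes piece gP gN))
    (htie : ∀ t < n, gath (tA (ty t)) (tB (ty t)) = G t) (hb : b ≤ 4)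
    {rs : List (ℕ × ℕ × ℕ)} {es cs : List ℕ} (hrs : ∀ p ∈ rs, p ∈ rwA)
    (h : unitG n ty piece gP gN b t8A dtA rs es cs = true) :
    ∀ p ∈ rs, ∀ e ∈ es, PDead (QS p.1 b) p.2.1 (cone 11 (fam 11 4 e)) :=
  dead_unitG hglue htie hb repA_lt t8A_eq dtA_eq (fun p hp => rwA_ok p (hrs p hp)) h

theorem dead_unitGB {n : ℕ} {ty piece gP gN G : ℕ → ℕ} {b : ℕ}
    (hglue : GluedOK n G (rlanes piece gP gN))
    (htie : ∀ t < n, gath (tA (ty t)) (tB (ty t)) = G t) (hb : b ≤ 4)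
    {rs : List (ℕ × ℕ × ℕ)} {es cs : List ℕ} (hrs : ∀ p ∈ rs, p ∈ rwB)
    (h : unitG n ty piece gP gN b t8B dtB rs es cs = true) :
    ∀ p ∈ rs, ∀ e ∈ es, PDead (QS p.1 b) p.2.1 (cone 11 (fam 11 4 e)) :=
  dead_unitG hglue htie hb repB_lt t8B_eq dtB_eq (fun p hp => rwB_ok p (hrs p hp)) h

end Pool.Agent.Helper33.TY
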